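import Pool.Agent.Run7.h206.QB.Main
import Pool.Agent.Run7.h206.SV.Dir
import Pool.Agent.Run7.h206.SAW.Dom

/-! # All sides, all distances, all windows -/

set_option autoImplicit false

namespace Run7.h206.QB

open Run7.h206.SV
open scoped Classical
open Pool.Agent.W840.CT (cn li ex SW)
open Pool.Agent.TH546.SAW (W pc mem_W card_W)

theorem sum_sq (N : ℕ) : ∑ h ∈ Finset.range N, 1 / ((h : ℝ) + 2) ^ 2 ≤ 1 - 1 / ((N : ℝ) + 1) := by
  induction N with
  | zero => simp
  | succ N ih =>
    rw [Finset.sum_range_succ]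
    have h0 : (0 : ℝ) ≤ N := Nat.cast_nonneg _
    have h1 : 1 / ((N : ℝ) + 2) ^ 2 ≤ 1 / ((N : ℝ) + 1) - 1 / ((N : ℝ) + 1 + 1) := by
      rw [div_sub_div _ _ (by positivity) (by positivity), div_le_div_iff₀ (by positivity)
        (by positivity)]
      nlinarith
    push_cast
    linarith

/-- the event that some side has too many sites nearby at some distance -/
def Bad (K : ℝ) (x : ℝ) (w : List P) : Prop :=
  ∃ (i : Fin 4) (h : ℕ), (1 + x) * Real.exp (K * Real.log (h + 2) ^ 2) <
    ((St h (w.map (sy i))).card : ℝ)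

theorem card_St_triv {h n : ℕ} {w : List P} (hw : w ∈ SF n) (i : Fin 4) :
    (St h (w.map (sy i))).card ≤ n + 1 := by
  have h1 := (mem_SF.1 hw).1
  unfold St
  refine (Finset.card_filter_le _ _).trans ((List.toFinset_card_le _).trans ?_)
  rw [List.length_map, h1]

theorem all_sides : ∃ K : ℝ, 0 ≤ K ∧ ∀ n : ℕ,
    (∀ x : ℝ, 0 ≤ x → (((SF n).filter (fun w => Bad K x w)).card : ℝ) ≤
      Real.exp (-x) * (SF n).card) ∧
    ∀ (i : Fin 4) (h : ℕ), ∑ w ∈ SF n, ((St h (w.map (sy i))).card : ℝ) ≤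
      Real.exp (K * Real.log (h + 2) ^ 2) * (SF n).card := by
  obtain ⟨K, hK, hside⟩ := side
  refine ⟨K + 6, by positivity, fun n => ⟨fun x hx => ?_, fun i h => ?_⟩⟩
  · have hlog2 := Real.log_two_gt_d9
    -- the numbers `x + 2 log (h + 2) + log 4`
    have hexp : ∀ h : ℕ, Real.exp (-(x + 2 * Real.log (h + 2) + Real.log 4)) =
        Real.exp (-x) / 4 * (1 / ((h : ℝ) + 2) ^ 2) := by
      intro h
      have h0 : (0 : ℝ) < (h : ℝ) + 2 := by positivity
      rw [show -(x + 2 * Real.log ((h : ℝ) + 2) + Real.log 4) =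
        -x + -(((2 : ℕ) : ℝ) * Real.log ((h : ℝ) + 2)) + -Real.log 4 by push_cast; ring,
        Real.exp_add, Real.exp_add, Real.exp_neg (Real.log 4), Real.exp_log (by norm_num),
        Real.exp_neg (((2 : ℕ) : ℝ) * _), Real.exp_nat_mul, Real.exp_log h0]
      ring
    have hbig : ∀ h : ℕ, (1 + (x + 2 * Real.log (h + 2) + Real.log 4)) *
        Real.exp (K * Real.log (h + 2) ^ 2) ≤
        (1 + x) * Real.exp ((K + 6) * Real.log (h + 2) ^ 2) := by
      intro h
      have h0 : (2 : ℝ) ≤ (h : ℝ) + 2 := by linarith [Nat.cast_nonneg (α := ℝ) h]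
      set L := Real.log ((h : ℝ) + 2) with hL
      have hL2 : Real.log 2 ≤ L := Real.log_le_log (by norm_num) h0
      have h4 : Real.log 4 = 2 * Real.log 2 := by
        rw [show (4 : ℝ) = 2 ^ 2 by norm_num, Real.log_pow]
        push_cast
        ring
      have e1 : 1 + 2 * L + Real.log 4 ≤ Real.exp (6 * L ^ 2) := by
        have e2 := Real.add_one_le_exp (6 * L ^ 2)
        have e3 : 4 * L ≤ 6 * L ^ 2 := by nlinarith
        rw [h4]
        linarith
      have e5 : 1 + (x + 2 * L + Real.log 4) ≤ (1 + x) * Real.exp (6 * L ^ 2) := by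
        have e6 : 0 ≤ 2 * L + Real.log 4 := by rw [h4]; linarith
        calc 1 + (x + 2 * L + Real.log 4) ≤ (1 + x) * (1 + 2 * L + Real.log 4) := by nlinarith
          _ ≤ _ := by gcongr
      calc (1 + (x + 2 * L + Real.log 4)) * Real.exp (K * L ^ 2)
          ≤ ((1 + x) * Real.exp (6 * L ^ 2)) * Real.exp (K * L ^ 2) := by gcongr
        _ = _ := by
            rw [mul_assoc, ← Real.exp_add]
            congr 2
            ring
    -- for large distances there is nothing to prove
    have htriv : ∀ h : ℕ, n ≤ h → ∀ w ∈ SF n, ∀ i : Fin 4, ((St h (w.map (sy i))).card : ℝ) ≤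
        (1 + x) * Real.exp ((K + 6) * Real.log (h + 2) ^ 2) := by
      intro h hn w hw i
      have h1 : ((St h (w.map (sy i))).card : ℝ) ≤ n + 1 := by exact_mod_cast card_St_triv hw i
      have h0 : (2 : ℝ) ≤ (h : ℝ) + 2 := by linarith [Nat.cast_nonneg (α := ℝ) h]
      set L := Real.log ((h : ℝ) + 2) with hL
      have hL2 : Real.log 2 ≤ L := Real.log_le_log (by norm_num) h0
      have h2 : (h : ℝ) + 2 = Real.exp L := (Real.exp_log (by linarith)).symm
      have h3 : (n : ℝ) ≤ h := by exact_mod_cast hn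
      have h4 : Real.exp L ≤ Real.exp ((K + 6) * L ^ 2) := by
        apply Real.exp_le_exp.2
        have : 0 ≤ K * L ^ 2 := by positivity
        nlinarith
      have h5 := Real.exp_pos ((K + 6) * L ^ 2)
      nlinarith
    have hsub : (SF n).filter (fun w => Bad (K + 6) x w) ⊆
        ((Finset.univ : Finset (Fin 4)) ×ˢ Finset.range n).biUnion (fun q =>
          (SF n).filter (fun w => (1 + (x + 2 * Real.log (q.2 + 2) + Real.log 4)) *
            Real.exp (K * Real.log (q.2 + 2) ^ 2) < ((St q.2 (w.map (sy q.1))).card : ℝ))) := by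
      intro w hw
      obtain ⟨hw, i, h, hb⟩ := Finset.mem_filter.1 hw
      rw [Finset.mem_biUnion]
      have hh : h < n := by
        by_contra hcon
        have := htriv h (not_lt.1 hcon) w hw i
        linarith
      exact ⟨(i, h), Finset.mem_product.2 ⟨Finset.mem_univ _, Finset.mem_range.2 hh⟩,
        Finset.mem_filter.2 ⟨hw, (hbig h).trans_lt hb⟩⟩
    have h1 := (Finset.card_le_card hsub).trans Finset.card_biUnion_le
    have h2 : (((SF n).filter (fun w => Bad (K + 6) x w)).card : ℝ) ≤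
        ∑ q ∈ (Finset.univ : Finset (Fin 4)) ×ˢ Finset.range n,
          (((SF n).filter (fun w => (1 + (x + 2 * Real.log (q.2 + 2) + Real.log 4)) *
            Real.exp (K * Real.log (q.2 + 2) ^ 2) < ((St q.2 (w.map (sy q.1))).card : ℝ))).card : ℝ) := by
      exact_mod_cast h1
    refine h2.trans ?_
    have h3 : ∀ q ∈ (Finset.univ : Finset (Fin 4)) ×ˢ Finset.range n,
        (((SF n).filter (fun w => (1 + (x + 2 * Real.log (q.2 + 2) + Real.log 4)) *
            Real.exp (K * Real.log (q.2 + 2) ^ 2) <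
              ((St q.2 (w.map (sy q.1))).card : ℝ))).card : ℝ) ≤
          Real.exp (-x) / 4 * (1 / ((q.2 : ℝ) + 2) ^ 2) * (SF n).card := by
      intro q _
      have e1 : ∀ (p : List P → Prop), (((SF n).filter (fun w => p (w.map (sy q.1)))).card : ℝ) =
          (((SF n).filter p).card : ℝ) := by
        intro p
        rw [← Finset.sum_boole, ← Finset.sum_boole]
        exact (sy_ok q.1).sum n (fun w => if p w then (1 : ℝ) else 0)
      rw [e1 (fun w => (1 + (x + 2 * Real.log (q.2 + 2) + Real.log 4)) *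
            Real.exp (K * Real.log (q.2 + 2) ^ 2) < ((St q.2 w).card : ℝ)), ← hexp]
      have h0 : (2 : ℝ) ≤ (q.2 : ℝ) + 2 := by linarith [Nat.cast_nonneg (α := ℝ) q.2]
      have h4 : 0 ≤ Real.log ((q.2 : ℝ) + 2) := Real.log_nonneg (by linarith)
      have h5 : 0 ≤ Real.log 4 := Real.log_nonneg (by norm_num)
      exact (hside n q.2).1 _ (by positivity)
    refine (Finset.sum_le_sum h3).trans ?_
    rw [Finset.sum_product]
    change ∑ _i : Fin 4, ∑ y ∈ Finset.range n,
      Real.exp (-x) / 4 * (1 / ((y : ℝ) + 2) ^ 2) * ((SF n).card : ℝ) ≤ _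
    rw [Finset.sum_const, Finset.card_univ, Fintype.card_fin, nsmul_eq_mul,
      ← Finset.sum_mul, ← Finset.mul_sum]
    have h4 := sum_sq n
    have h5 : ∑ h ∈ Finset.range n, 1 / ((h : ℝ) + 2) ^ 2 ≤ 1 := by
      have : 0 ≤ 1 / ((n : ℝ) + 1) := by positivity
      linarith
    push_cast
    calc 4 * (Real.exp (-x) / 4 * (∑ h ∈ Finset.range n, 1 / ((h : ℝ) + 2) ^ 2) * (SF n).card)
        ≤ 4 * (Real.exp (-x) / 4 * 1 * (SF n).card) := by gcongr
      _ = _ := by ring
  · rw [(sy_ok i).sum n (fun w => ((St h w).card : ℝ))]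
    refine ((hside n h).2).trans ?_
    gcongr
    linarith

/-- walks as functions and as lists -/
theorem coe_W (m : ℕ) (p : List P → Prop) :
    ((W m).filter (fun v => p (li v))).card = ((SF m).filter p).card := by
  refine Finset.card_bij (fun v _ => li v) ?_ ?_ ?_
  · intro v hv
    rw [Finset.mem_filter] at hv ⊢
    refine ⟨?_, hv.2⟩
    rw [← Finset.mem_coe, coe_SF_LS]
    exact Pool.Agent.W840.CT.li_mem (mem_W.1 hv.1)
  · intro v _ v' _ h
    exact Pool.Agent.W840.CT.li_inj h
  · intro l hl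
    rw [Finset.mem_filter] at hl
    have h1 : (W m).image li = SF m := by
      apply Finset.eq_of_subset_of_card_le
      · intro l hl
        obtain ⟨v, hv, rfl⟩ := Finset.mem_image.1 hl
        rw [← Finset.mem_coe, coe_SF_LS]
        exact Pool.Agent.W840.CT.li_mem (mem_W.1 hv)
      · rw [card_SF_cn, Finset.card_image_of_injective _ (fun _ _ h => Pool.Agent.W840.CT.li_inj h),
          card_W]
    have h2 : l ∈ (W m).image li := by rw [h1]; exact hl.1
    obtain ⟨v, hv, rfl⟩ := Finset.mem_image.1 h2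
    exact ⟨v, Finset.mem_filter.2 ⟨hv, hl.2⟩, rfl⟩

theorem sum_W (m : ℕ) (F : List P → ℝ) : ∑ v ∈ W m, F (li v) = ∑ l ∈ SF m, F l := by
  have h1 : (W m).image li = SF m := by
    apply Finset.eq_of_subset_of_card_le
    · intro l hl
      obtain ⟨v, hv, rfl⟩ := Finset.mem_image.1 hl
      rw [← Finset.mem_coe, coe_SF_LS]
      exact Pool.Agent.W840.CT.li_mem (mem_W.1 hv)
    · rw [card_SF_cn, Finset.card_image_of_injective _ (fun _ _ h => Pool.Agent.W840.CT.li_inj h),
        card_W]
  rw [← h1, Finset.sum_image (fun _ _ _ _ h => Pool.Agent.W840.CT.li_inj h)]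

/-- the main bound, for functions -/
theorem final : ∃ K : ℝ, 0 < K ∧
    (∀ (n : ℕ) (i : Fin 4) (h : ℕ), ∑ v ∈ W n, ((St h ((li v).map (sy i))).card : ℝ) ≤
      Real.exp (K * Real.log (h + 2) ^ 2) * cn n) ∧
    (∀ (n : ℕ) (x : ℝ), 0 ≤ x → (((W n).filter (fun v => Bad K x (li v))).card : ℝ) ≤
      Real.exp (-x) * cn n) ∧
    (∀ n : ℕ, 2 ≤ n → ∀ x : ℝ, 0 ≤ x →
      (((W n).filter (fun v => ∃ a b : ℕ, a ≤ b ∧ b ≤ n ∧ ∃ (i : Fin 4) (h : ℕ),
        (Real.log n ^ 2 + x) * Real.exp (K * Real.log (h + 2) ^ 2) <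
          ((St h ((li (pc a (b - a) v)).map (sy i))).card : ℝ))).card : ℝ) ≤
      Real.exp (-x) * cn n) := by
  obtain ⟨K, hK, hall⟩ := all_sides
  obtain ⟨K2, hK2, hwin⟩ := Run7.h206.SAW.windows_gen (β := 1) (C := 1) one_pos one_pos
    (fun m y v => Bad K y (li v)) (fun m y hy => by
      rw [coe_W m (fun l => Bad K y l), one_mul, one_mul, ← card_SF_cn]
      exact (hall m).1 y hy)
  have hl3 : 0 ≤ Real.log (3 + K2) := Real.log_nonneg (by linarith)
  have hsq : ∀ h : ℕ, 1 ≤ 3 * Real.log ((h : ℝ) + 2) ^ 2 := by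
    intro h
    have := (Run7.h206.SAW.log_facts (n := h + 2) (by omega)).1
    push_cast at this
    exact this
  refine ⟨K + 3 * Real.log (3 + K2) + 1, by positivity, fun n i h => ?_, fun n x hx => ?_,
    fun n hn x hx => ?_⟩
  · rw [sum_W n (fun l => ((St h (l.map (sy i))).card : ℝ)), ← card_SF_cn]
    refine ((hall n).2 i h).trans ?_
    gcongr
    linarith
  · rw [coe_W n (fun l => Bad _ x l), ← card_SF_cn]
    refine le_trans ?_ ((hall n).1 x hx)
    have hsub : (SF n).filter (fun w => Bad (K + 3 * Real.log (3 + K2) + 1) x w) ⊆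
        (SF n).filter (fun w => Bad K x w) := by
      intro w hw
      obtain ⟨hw, i, h, hb⟩ := Finset.mem_filter.1 hw
      refine Finset.mem_filter.2 ⟨hw, i, h, lt_of_le_of_lt ?_ hb⟩
      gcongr
      linarith
    exact_mod_cast Finset.card_le_card hsub
  · have h1 := hwin n hn x hx
    obtain ⟨hl1, -⟩ := Run7.h206.SAW.log_facts hn
    have hcn := Pool.Agent.W840.CT.cn_pos n
    refine le_trans ?_ (h1.trans ?_)
    · have hsub : (W n).filter (fun v => ∃ a b : ℕ, a ≤ b ∧ b ≤ n ∧ ∃ (i : Fin 4) (h : ℕ),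
          (Real.log n ^ 2 + x) * Real.exp ((K + 3 * Real.log (3 + K2) + 1) *
            Real.log (h + 2) ^ 2) < ((St h ((li (pc a (b - a) v)).map (sy i))).card : ℝ)) ⊆
          (W n).filter (fun v => ∃ a b : ℕ, a ≤ b ∧ b ≤ n ∧
            Bad K (K2 * (Real.log n ^ 2 + x)) (li (pc a (b - a) v))) := by
        intro v hv
        obtain ⟨hv, a, b, hab, hb, i, h, hbad⟩ := Finset.mem_filter.1 hv
        refine Finset.mem_filter.2 ⟨hv, a, b, hab, hb, i, h, lt_of_le_of_lt ?_ hbad⟩
        set l := Real.log ((h : ℝ) + 2) ^ 2 with hl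
        have hl0 : 0 ≤ l := by rw [hl]; positivity
        have e1 : 1 + K2 * (Real.log n ^ 2 + x) ≤ (3 + K2) * (Real.log n ^ 2 + x) := by
          nlinarith
        have e2 : 3 + K2 ≤ Real.exp (3 * Real.log (3 + K2) * l) := by
          calc 3 + K2 = Real.exp (Real.log (3 + K2)) := (Real.exp_log (by linarith)).symm
            _ ≤ _ := by
              apply Real.exp_le_exp.2
              have := hsq h
              nlinarith
        have e3 : 0 ≤ Real.log n ^ 2 + x := by positivity
        calc (1 + K2 * (Real.log n ^ 2 + x)) * Real.exp (K * l)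
            ≤ ((3 + K2) * (Real.log n ^ 2 + x)) * Real.exp (K * l) := by gcongr
          _ ≤ (Real.exp (3 * Real.log (3 + K2) * l) * (Real.log n ^ 2 + x)) *
              Real.exp (K * l) := by gcongr
          _ = (Real.log n ^ 2 + x) * Real.exp ((K + 3 * Real.log (3 + K2)) * l) := by
              rw [show (K + 3 * Real.log (3 + K2)) * l = 3 * Real.log (3 + K2) * l + K * l by ring,
                Real.exp_add]
              ring
          _ ≤ _ := by
              refine mul_le_mul_of_nonneg_left (Real.exp_le_exp.2 ?_) e3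
              nlinarith
      exact_mod_cast Finset.card_le_card hsub
    · have := Real.exp_pos (-x)
      nlinarith

end Run7.h206.QB
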