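import Pool.Agent.Run7.h206.QB.Cnt

/-! # The sites in the strip and the good blocks -/

set_option autoImplicit false

namespace Run7.h206.QB

open Run7.h206.SV
open scoped Classical

/-- the sites at height at most `h` above the lowest line -/
noncomputable def St (h : ℕ) (w : List P) : Finset P := w.toFinset.filter (fun p => p.2 ≤ mh w + h)

theorem mem_St {h : ℕ} {w : List P} {p : P} : p ∈ St h w ↔ p ∈ w ∧ p.2 ≤ mh w + h := by
  unfold St
  rw [Finset.mem_filter, List.mem_toFinset]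

/-- the blocks with a locally lowest site in the strip -/
noncomputable def Lo (ℓ h : ℕ) (w : List P) : Finset ℤ :=
  (w.toFinset.image (fun p => p.1 / (2 * (ℓ : ℤ) + 1))).filter (fun j =>
    ∃ p ∈ w, p.1 / (2 * (ℓ : ℤ) + 1) = j ∧ p.2 ≤ mh w + h ∧
      ∀ p' ∈ w, j - 1 ≤ p'.1 / (2 * (ℓ : ℤ) + 1) → p'.1 / (2 * (ℓ : ℤ) + 1) ≤ j + 1 → p.2 ≤ p'.2)

theorem mem_Lo {ℓ h : ℕ} {w : List P} {j : ℤ} : j ∈ Lo ℓ h w ↔
    ∃ p ∈ w, p.1 / (2 * (ℓ : ℤ) + 1) = j ∧ p.2 ≤ mh w + h ∧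
      ∀ p' ∈ w, j - 1 ≤ p'.1 / (2 * (ℓ : ℤ) + 1) → p'.1 / (2 * (ℓ : ℤ) + 1) ≤ j + 1 →
        p.2 ≤ p'.2 := by
  unfold Lo
  rw [Finset.mem_filter]
  constructor
  · exact fun h => h.2
  · intro h
    refine ⟨?_, h⟩
    obtain ⟨p, hp, hj, -⟩ := h
    rw [Finset.mem_image]
    exact ⟨p, List.mem_toFinset.2 hp, hj⟩

theorem descent {ℓ h : ℕ} {w : List P} (k : ℕ) : ∀ p ∈ w, p.2 - mh w ≤ k → k ≤ h →
    ∃ j ∈ Lo ℓ h w, |p.1 / (2 * (ℓ : ℤ) + 1) - j| ≤ k := by
  induction k with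
  | zero =>
    intro p hp hk hh
    refine ⟨_, mem_Lo.2 ⟨p, hp, rfl, ?_, ?_⟩, by simp⟩
    · simp only [Nat.cast_zero] at hk
      have : (0 : ℤ) ≤ h := by positivity
      linarith
    · intro p' hp' _ _
      have := mh_le hp'
      simp only [Nat.cast_zero] at hk
      linarith
  | succ k ih =>
    intro p hp hk hh
    by_cases h1 : ∀ p' ∈ w, p.1 / (2 * (ℓ : ℤ) + 1) - 1 ≤ p'.1 / (2 * (ℓ : ℤ) + 1) →
        p'.1 / (2 * (ℓ : ℤ) + 1) ≤ p.1 / (2 * (ℓ : ℤ) + 1) + 1 → p.2 ≤ p'.2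
    · refine ⟨_, mem_Lo.2 ⟨p, hp, rfl, ?_, h1⟩, ?_⟩
      · have : ((k + 1 : ℕ) : ℤ) ≤ h := by exact_mod_cast hh
        linarith
      · rw [sub_self, abs_zero]
        positivity
    · push Not at h1
      obtain ⟨p', hp', h2, h3, h4⟩ := h1
      obtain ⟨j, hj, h5⟩ := ih p' hp' (by push_cast at hk; omega) (by omega)
      refine ⟨j, hj, ?_⟩
      rw [abs_le] at h5 ⊢
      push_cast
      constructor <;> omega

theorem card_St {ℓ h : ℕ} {w : List P} :
    (St h w).card ≤ (Lo ℓ h w).card * ((2 * h + 1) * (2 * ℓ + 1) * (h + 1)) := by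
  have hsub : St h w ⊆ (Lo ℓ h w).biUnion (fun j =>
      (Finset.Ico ((j - h) * (2 * (ℓ : ℤ) + 1)) ((j + h + 1) * (2 * (ℓ : ℤ) + 1))) ×ˢ
        (Finset.Icc (mh w) (mh w + h))) := by
    intro p hp
    rw [mem_St] at hp
    obtain ⟨hp, hph⟩ := hp
    obtain ⟨j, hj, h1⟩ := descent (ℓ := ℓ) (h := h) h p hp (by linarith) le_rfl
    rw [Finset.mem_biUnion]
    refine ⟨j, hj, ?_⟩
    rw [Finset.mem_product, Finset.mem_Ico, Finset.mem_Icc]
    have hb : (0 : ℤ) < 2 * (ℓ : ℤ) + 1 := by positivity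
    rw [abs_le] at h1
    refine ⟨⟨?_, ?_⟩, mh_le hp, hph⟩
    · rw [← Int.le_ediv_iff_mul_le hb]
      linarith [h1.1]
    · rw [← Int.ediv_lt_iff_lt_mul hb]
      linarith [h1.2]
  refine (Finset.card_le_card hsub).trans (Finset.card_biUnion_le_card_mul _ _ _ (fun j _ => ?_))
  rw [Finset.card_product, Int.card_Ico, Int.card_Icc]
  apply le_of_eq
  congr 1
  · rw [show (j + h + 1) * (2 * (ℓ : ℤ) + 1) - (j - h) * (2 * (ℓ : ℤ) + 1) =
      (((2 * h + 1) * (2 * ℓ + 1) : ℕ) : ℤ) by push_cast; ring, Int.toNat_natCast]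
  · rw [show mh w + h + 1 - mh w = ((h + 1 : ℕ) : ℤ) by push_cast; ring, Int.toNat_natCast]

/-- the mirror image -/
def mi (p : P) : P := (-p.1, p.2)

theorem mi_mi (p : P) : mi (mi p) = p := by simp [mi]

theorem mem_map_mi {w : List P} {p : P} : p ∈ w.map mi ↔ mi p ∈ w := by
  rw [List.mem_map]
  constructor
  · rintro ⟨q, hq, rfl⟩
    rwa [mi_mi]
  · intro h
    exact ⟨_, h, mi_mi p⟩

theorem mh_mi {w : List P} (hw : w ≠ []) : mh (w.map mi) = mh w := by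
  apply le_antisymm
  · obtain ⟨p, hp, h⟩ := mh_mem hw
    rw [← h]
    have : mi p ∈ w.map mi := List.mem_map_of_mem hp
    have h2 := mh_le this
    exact h2
  · obtain ⟨p, hp, h⟩ := mh_mem (l := w.map mi) (by simpa using hw)
    rw [← h]
    rw [mem_map_mi] at hp
    have h2 := mh_le hp
    exact h2

theorem edge_of {w : List P} (hc : w.IsChain Adj) (hn : w.Nodup) {p : P} (hp : p ∈ w)
    (h1 : w.head? ≠ some p) (h2 : w.getLast? ≠ some p) (h3 : (p.1, p.2 - 1) ∉ w) :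
    ∃ x, (x = p.1 ∨ x = p.1 - 1) ∧
      ([((x, p.2) : P), (x + 1, p.2)] <:+: w ∨ [((x + 1, p.2) : P), (x, p.2)] <:+: w) := by
  obtain ⟨u, v, rfl⟩ := List.append_of_mem hp
  have hu : u ≠ [] := by
    rintro rfl
    exact h1 (by simp)
  have hv : v ≠ [] := by
    rintro rfl
    exact h2 (by simp)
  obtain ⟨u', a, rfl⟩ : ∃ u' a, u = u' ++ [a] := ⟨_, _, (List.dropLast_append_getLast hu).symm⟩
  obtain ⟨b, v', rfl⟩ : ∃ b v', v = b :: v' := List.exists_cons_of_ne_nil hv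
  have hap : [a, p] <:+: (u' ++ [a] ++ p :: b :: v') := ⟨u', b :: v', by simp⟩
  have hpb : [p, b] <:+: (u' ++ [a] ++ p :: b :: v') := ⟨u' ++ [a], v', by simp⟩
  have hab : a ≠ b := by
    rintro rfl
    rw [List.nodup_append] at hn
    exact hn.2.2 a (by simp) a (by simp) rfl
  have ha := con_adj hap hc
  have hb := con_adj hpb hc
  have ha3 : a ≠ (p.1, p.2 - 1) := fun h => h3 (h ▸ (con_mem hap).1)
  have hb3 : b ≠ (p.1, p.2 - 1) := fun h => h3 (h ▸ (con_mem hpb).2)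
  have key : ∀ q : P, Adj q p → q ≠ (p.1, p.2 - 1) → q = (p.1, p.2 + 1) ∨ q = (p.1 + 1, p.2) ∨
      q = (p.1 - 1, p.2) := by
    intro q hq hq3
    rw [adj_comm, adj_iff] at hq
    unfold steps at hq
    simp only [Finset.mem_insert, Finset.mem_singleton, Prod.ext_iff, Prod.fst_sub,
      Prod.snd_sub] at hq
    rw [Ne, Prod.ext_iff] at hq3
    simp only [Prod.ext_iff]
    simp only at hq3
    omega
  rcases key a ha ha3 with h | h | h
  · rcases key b (adj_comm.1 hb) hb3 with h' | h' | h'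
    · exact absurd (h.trans h'.symm) hab
    · subst h'
      exact ⟨p.1, Or.inl rfl, Or.inl hpb⟩
    · refine ⟨p.1 - 1, Or.inr rfl, Or.inr ?_⟩
      subst h'
      rw [sub_add_cancel]
      exact hpb
  · subst h
    exact ⟨p.1, Or.inl rfl, Or.inr hap⟩
  · refine ⟨p.1 - 1, Or.inr rfl, Or.inl ?_⟩
    subst h
    rw [sub_add_cancel]
    exact hap

/-- the index set of the classes of good blocks -/
def IX (h : ℕ) : Finset (ℕ × ℤ) := Finset.range (h + 1) ×ˢ {0, 1, 2, 3}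

theorem card_IX (h : ℕ) : (IX h).card = 4 * (h + 1) := by
  unfold IX
  rw [Finset.card_product, Finset.card_range, mul_comm]
  rfl

theorem lo_mem {ℓ h : ℕ} {w : List P} (hc : w.IsChain Adj) (hn : w.Nodup) {j : ℤ}
    (hj : j ∈ Lo ℓ h w) :
    (∃ p, (w.head? = some p ∨ w.getLast? = some p) ∧ j = p.1 / (2 * (ℓ : ℤ) + 1)) ∨
    ∃ i ∈ IX h, (j ∈ G ℓ i.1 i.2 w ∨ j - 1 ∈ G ℓ i.1 i.2 w) ∨
      (-j ∈ G ℓ i.1 i.2 (w.map mi) ∨ -j - 1 ∈ G ℓ i.1 i.2 (w.map mi)) := by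
  obtain ⟨p, hp, hpj, hph, hlow⟩ := mem_Lo.1 hj
  by_cases h1 : w.head? = some p
  · exact Or.inl ⟨p, Or.inl h1, hpj.symm⟩
  by_cases h2 : w.getLast? = some p
  · exact Or.inl ⟨p, Or.inr h2, hpj.symm⟩
  right
  have hb : (0 : ℤ) < 2 * (ℓ : ℤ) + 1 := by positivity
  have hw : w ≠ [] := List.ne_nil_of_mem hp
  have h3 : (p.1, p.2 - 1) ∉ w := by
    intro h
    have := hlow _ h (by simp only [hpj]; linarith) (by simp only [hpj]; linarith)
    simp at this
  obtain ⟨x, hx, hedge⟩ := edge_of hc hn hp h1 h2 h3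
  obtain ⟨y, hy⟩ := Int.eq_ofNat_of_zero_le (sub_nonneg.2 (mh_le hp))
  have hy' : p.2 = mh w + y := by linarith
  have hyh : y ≤ h := by
    have : (y : ℤ) ≤ h := by linarith
    exact_mod_cast this
  have hpj1 : j * (2 * (ℓ : ℤ) + 1) ≤ p.1 := (Int.le_ediv_iff_mul_le hb).1 hpj.ge
  have hpj2 : p.1 < (j + 1) * (2 * (ℓ : ℤ) + 1) :=
    (Int.ediv_lt_iff_lt_mul hb).1 (by linarith)
  have hIX : ∀ i : ℤ, (y, i % 4) ∈ IX h := by
    intro i
    unfold IX
    rw [Finset.mem_product, Finset.mem_range]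
    simp only [Finset.mem_insert, Finset.mem_singleton]
    omega
  -- all sites in the columns nearby are not lower
  have hwin : ∀ p' ∈ w, p.1 - 1 - 2 * (ℓ : ℤ) ≤ p'.1 → p'.1 ≤ p.1 + 1 + 2 * (ℓ : ℤ) →
      mh w + y ≤ p'.2 := by
    intro p' hp' e1 e2
    rw [← hy']
    apply hlow p' hp'
    · rw [Int.le_ediv_iff_mul_le hb]
      linarith
    · have : p'.1 / (2 * (ℓ : ℤ) + 1) < j + 2 := by
        rw [Int.ediv_lt_iff_lt_mul hb]
        linarith
      linarith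
  have hxj : x / (2 * (ℓ : ℤ) + 1) = j ∨ x / (2 * (ℓ : ℤ) + 1) = j - 1 := by
    have e1 : j - 1 ≤ x / (2 * (ℓ : ℤ) + 1) := by
      rw [Int.le_ediv_iff_mul_le hb]
      rcases hx with hx | hx <;> rw [hx] <;> linarith
    have e2 : x / (2 * (ℓ : ℤ) + 1) < j + 1 := by
      rw [Int.ediv_lt_iff_lt_mul hb]
      rcases hx with hx | hx <;> rw [hx] <;> linarith
    omega
  rcases hedge with hedge | hedge
  · have hE : Exp ℓ y w x := by
      refine ⟨by rw [← hy']; exact hedge, fun p' hp' hd => hwin p' hp' ?_ ?_⟩ <;>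
        rw [abs_le] at hd <;> rcases hx with hx | hx <;> rw [hx] at hd <;> linarith [hd.1, hd.2]
    have hG : x / (2 * (ℓ : ℤ) + 1) ∈ G ℓ y (x / (2 * (ℓ : ℤ) + 1) % 4) w :=
      mem_G.2 ⟨rfl, x, rfl, hE⟩
    refine ⟨(y, x / (2 * (ℓ : ℤ) + 1) % 4), hIX _, Or.inl ?_⟩
    rcases hxj with h | h
    · left
      rw [h] at hG ⊢
      exact hG
    · right
      rw [h] at hG ⊢
      exact hG
  · have hneg : (-x - 1) / (2 * (ℓ : ℤ) + 1) = - (x / (2 * (ℓ : ℤ) + 1)) - 1 := by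
      have e0 := Int.emod_add_mul_ediv x (2 * (ℓ : ℤ) + 1)
      have e1 := Int.emod_nonneg x hb.ne'
      have e2 := Int.emod_lt_of_pos x hb
      apply le_antisymm
      · have : (-x - 1) / (2 * (ℓ : ℤ) + 1) < - (x / (2 * (ℓ : ℤ) + 1)) := by
          rw [Int.ediv_lt_iff_lt_mul hb]
          nlinarith
        linarith
      · rw [Int.le_ediv_iff_mul_le hb]
        nlinarith
    have hE : Exp ℓ y (w.map mi) (-x - 1) := by
      refine ⟨?_, ?_⟩
      · rw [mh_mi hw, ← hy']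
        have := hedge.map mi
        simp only [List.map_cons, List.map_nil, mi] at this
        rw [show -x - 1 = -(x + 1) by ring, show -(x + 1) + 1 = -x by ring]
        exact this
      · intro p' hp' hd
        rw [mh_mi hw]
        rw [mem_map_mi] at hp'
        have e1 := hwin (mi p') hp'
        simp only [mi] at e1
        rw [abs_le] at hd
        refine e1 ?_ ?_ <;> rcases hx with hx | hx <;> rw [hx] at hd <;> linarith [hd.1, hd.2]
    have hG : (-x - 1) / (2 * (ℓ : ℤ) + 1) ∈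
        G ℓ y ((-x - 1) / (2 * (ℓ : ℤ) + 1) % 4) (w.map mi) := mem_G.2 ⟨rfl, _, rfl, hE⟩
    refine ⟨(y, (-x - 1) / (2 * (ℓ : ℤ) + 1) % 4), hIX _, Or.inr ?_⟩
    rw [hneg] at hG ⊢
    rcases hxj with h | h
    · right
      rw [h] at hG ⊢
      exact hG
    · left
      rw [h] at hG ⊢
      rw [show -(j - 1) - 1 = -j by ring] at hG ⊢
      exact hG

theorem card_Lo {ℓ h : ℕ} {w : List P} (hc : w.IsChain Adj) (hn : w.Nodup) :
    (Lo ℓ h w).card ≤ 2 + 2 * ∑ i ∈ IX h, ((G ℓ i.1 i.2 w).card +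
      (G ℓ i.1 i.2 (w.map mi)).card) := by
  have hsub : Lo ℓ h w ⊆ (({(w.head?.getD 0).1 / (2 * (ℓ : ℤ) + 1),
      (w.getLast?.getD 0).1 / (2 * (ℓ : ℤ) + 1)} : Finset ℤ)) ∪
      (IX h).biUnion (fun i => ((G ℓ i.1 i.2 w) ∪ (G ℓ i.1 i.2 w).image (fun j => j + 1)) ∪
        ((G ℓ i.1 i.2 (w.map mi)).image (fun j => -j) ∪
          (G ℓ i.1 i.2 (w.map mi)).image (fun j => -j - 1))) := by
    intro j hj
    rw [Finset.mem_union]
    rcases lo_mem hc hn hj with ⟨p, hp | hp, rfl⟩ | ⟨i, hi, h⟩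
    · left
      rw [hp]
      simp
    · left
      rw [hp]
      simp
    · right
      rw [Finset.mem_biUnion]
      refine ⟨i, hi, ?_⟩
      rw [Finset.mem_union, Finset.mem_union, Finset.mem_union, Finset.mem_image,
        Finset.mem_image, Finset.mem_image]
      rcases h with (h | h) | (h | h)
      · exact Or.inl (Or.inl h)
      · exact Or.inl (Or.inr ⟨_, h, by ring⟩)
      · exact Or.inr (Or.inl ⟨_, h, by ring⟩)
      · exact Or.inr (Or.inr ⟨_, h, by ring⟩)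
  refine (Finset.card_le_card hsub).trans ((Finset.card_union_le _ _).trans ?_)
  refine add_le_add Finset.card_le_two ?_
  refine Finset.card_biUnion_le.trans ?_
  rw [Finset.mul_sum]
  refine Finset.sum_le_sum (fun i _ => ?_)
  refine (Finset.card_union_le _ _).trans ?_
  have e1 := Finset.card_union_le (G ℓ i.1 i.2 w) ((G ℓ i.1 i.2 w).image (fun j => j + 1))
  have e2 := Finset.card_union_le ((G ℓ i.1 i.2 (w.map mi)).image (fun j => -j))
    ((G ℓ i.1 i.2 (w.map mi)).image (fun j => -j - 1))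
  have e3 := Finset.card_image_le (s := G ℓ i.1 i.2 w) (f := fun j => j + 1)
  have e4 := Finset.card_image_le (s := G ℓ i.1 i.2 (w.map mi)) (f := fun j => -j)
  have e5 := Finset.card_image_le (s := G ℓ i.1 i.2 (w.map mi)) (f := fun j => -j - 1)
  omega

end Run7.h206.QB
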