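import Pool.Agent.Run7.h206.QB.Hang

/-! # Exponential moments of the number of good blocks -/

set_option autoImplicit false

namespace Run7.h206.QB

open Run7.h206.SV
open scoped Classical

/-- the total function which belongs to a function on `J` -/
noncomputable def ext (J : Finset ℤ) (g : (j : ℤ) → j ∈ J → List P) (j : ℤ) : List P :=
  if h : j ∈ J then g j h else []

theorem dat {ℓ y D o n : ℕ} {c : ℤ} {w : List P} {J : Finset ℤ} {g : (j : ℤ) → j ∈ J → List P}
    (hl : 1 ≤ ℓ) (hy : y ≤ D) (hw : w ∈ SF n) (hJ : J ⊆ G ℓ y c w)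
    (hg : g ∈ J.pi (fun _ => QS ℓ D o)) : Dat ℓ y D o c w J (ext J g) := by
  obtain ⟨h1, h2, h3, h4⟩ := mem_SF.1 hw
  refine ⟨hl, hy, h3, h4, ?_, hJ, ?_⟩
  · rintro rfl
    simp at h1
  · intro j hj
    unfold ext
    rw [dif_pos hj]
    exact (Finset.mem_pi.1 hg) j hj

theorem hg_mem {ℓ y D o n : ℕ} {c : ℤ} {w : List P} {J : Finset ℤ} {Q : ℤ → List P}
    (hw : w ∈ SF n) (H : Dat ℓ y D o c w J Q) : Hg ℓ y w J Q ∈ SF (n + 2 * ℓ * J.card) := by
  obtain ⟨h1, h2, h3, h4⟩ := mem_SF.1 hw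
  rw [mem_SF]
  refine ⟨?_, ?_, hg_chain H, hg_nodup H⟩
  · rw [hg_length H, h1]
    ring
  · rw [hg_head, h2]

/-- the number of the ways to hang polygons below `r` blocks -/
theorem count_r {ℓ y D o : ℕ} (hl : 1 ≤ ℓ) (hy : y ≤ D) (c : ℤ) (n r : ℕ) (hr : 1 ≤ r) :
    (∑ w ∈ SF n, ((G ℓ y c w).powersetCard r).card) * (QS ℓ D o).card ^ r ≤
      (SF (n + 2 * ℓ * r)).card := by
  set A : Finset (Σ _ : List P, Finset ℤ) := (SF n).sigma (fun w => (G ℓ y c w).powersetCard r)
    with hA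
  set B : Finset (Σ q : (Σ _ : List P, Finset ℤ), (j : ℤ) → j ∈ q.2 → List P) :=
    A.sigma (fun q => q.2.pi (fun _ => QS ℓ D o)) with hB
  have h1 : B.card = (∑ w ∈ SF n, ((G ℓ y c w).powersetCard r).card) * (QS ℓ D o).card ^ r := by
    rw [hB, Finset.card_sigma, Finset.sum_congr rfl (g := fun _ => (QS ℓ D o).card ^ r),
      Finset.sum_const, smul_eq_mul, hA, Finset.card_sigma]
    rintro ⟨w, J⟩ hq
    rw [hA, Finset.mem_sigma, Finset.mem_powersetCard] at hq
    rw [Finset.card_pi, Finset.prod_const, hq.2.2]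
  rw [← h1]
  refine Finset.card_le_card_of_injOn (fun q => Hg ℓ y q.1.1 q.1.2 (ext q.1.2 q.2)) ?_ ?_
  · rintro ⟨⟨w, J⟩, g⟩ hq
    rw [Finset.mem_coe, hB, Finset.mem_sigma, hA, Finset.mem_sigma, Finset.mem_powersetCard] at hq
    obtain ⟨⟨hw, hJ, hJr⟩, hg⟩ := hq
    have := hg_mem hw (dat hl hy hw hJ hg)
    simp only at hJr
    rw [hJr] at this
    exact this
  · rintro ⟨⟨w, J⟩, g⟩ hq ⟨⟨w', J'⟩, g'⟩ hq' h
    rw [Finset.mem_coe, hB, Finset.mem_sigma, hA, Finset.mem_sigma, Finset.mem_powersetCard]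
      at hq hq'
    obtain ⟨⟨hw, hJ, hJr⟩, hg⟩ := hq
    obtain ⟨⟨hw', hJ', hJr'⟩, hg'⟩ := hq'
    simp only at hw hJ hJr hg hw' hJ' hJr' hg' h
    have hne : J.Nonempty := Finset.card_pos.1 (by omega)
    have hne' : J'.Nonempty := Finset.card_pos.1 (by omega)
    obtain ⟨rfl, rfl, h3⟩ := hg_inj (dat hl hy hw hJ hg) (dat hl hy hw' hJ' hg') hne hne' h
    have : g = g' := by
      funext j hj
      have := h3 j hj
      unfold ext at this
      rwa [dif_pos hj, dif_pos hj] at this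
    rw [this]

theorem exp_G {ℓ y D o : ℕ} (hl : 1 ≤ ℓ) (hy : y ≤ D) (c : ℤ) {M : ℝ} (hM : 0 < M)
    (hgrow : ∀ n r : ℕ, ((SF (n + 2 * ℓ * r)).card : ℝ) ≤ M ^ r * (SF n).card) (n : ℕ) :
    ∑ w ∈ SF n, (1 + (QS ℓ D o).card / (2 * M)) ^ (G ℓ y c w).card ≤ 2 * ((SF n).card : ℝ) := by
  set q : ℝ := ((QS ℓ D o).card : ℝ) with hq
  set t : ℝ := q / (2 * M) with ht
  have hq0 : 0 ≤ q := by positivity
  have ht0 : 0 ≤ t := by positivity
  have h1 : ∀ w, (1 + t) ^ (G ℓ y c w).card =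
      ∑ r ∈ Finset.range ((G ℓ y c w).card + 1), (((G ℓ y c w).powersetCard r).card : ℝ) * t ^ r := by
    intro w
    rw [add_comm, add_pow]
    refine Finset.sum_congr rfl (fun r _ => ?_)
    rw [Finset.card_powersetCard, one_pow, mul_one, mul_comm]
  set N := (SF n).sup (fun w => (G ℓ y c w).card) + 1 with hN
  have h2 : ∀ w ∈ SF n, (1 + t) ^ (G ℓ y c w).card =
      ∑ r ∈ Finset.range N, (((G ℓ y c w).powersetCard r).card : ℝ) * t ^ r := by
    intro w hw
    rw [h1]
    apply Finset.sum_subset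
    · intro r hr
      rw [Finset.mem_range] at hr ⊢
      have : (G ℓ y c w).card ≤ (SF n).sup (fun w => (G ℓ y c w).card) :=
        Finset.le_sup (f := fun w => (G ℓ y c w).card) hw
      omega
    · intro r _ hr
      rw [Finset.mem_range, not_lt] at hr
      rw [Finset.card_powersetCard, Nat.choose_eq_zero_of_lt (by omega)]
      simp
  rw [Finset.sum_congr rfl h2, Finset.sum_comm]
  have h3 : ∀ r ∈ Finset.range N,
      ∑ w ∈ SF n, (((G ℓ y c w).powersetCard r).card : ℝ) * t ^ r ≤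
        (1 / 2 : ℝ) ^ r * (SF n).card := by
    intro r _
    rcases Nat.eq_zero_or_pos r with rfl | hr
    · simp
    · have h4 : (∑ w ∈ SF n, (((G ℓ y c w).powersetCard r).card : ℝ)) * q ^ r ≤
          (SF (n + 2 * ℓ * r)).card := by
        have := count_r (D := D) (o := o) hl hy c n r hr
        rw [hq]
        exact_mod_cast this
      rw [← Finset.sum_mul]
      calc (∑ w ∈ SF n, (((G ℓ y c w).powersetCard r).card : ℝ)) * t ^ r
          = ((∑ w ∈ SF n, (((G ℓ y c w).powersetCard r).card : ℝ)) * q ^ r) *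
            (1 / (2 * M)) ^ r := by
            rw [ht, div_eq_mul_one_div q, mul_pow]
            ring
        _ ≤ (M ^ r * (SF n).card) * (1 / (2 * M)) ^ r := by
            exact mul_le_mul_of_nonneg_right (h4.trans (hgrow n r)) (by positivity)
        _ = (1 / 2 : ℝ) ^ r * (SF n).card := by
            have : M ^ r * (1 / (2 * M)) ^ r = (1 / 2 : ℝ) ^ r := by
              rw [← mul_pow]
              congr 1
              field_simp
            linear_combination ((SF n).card : ℝ) * this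
  refine (Finset.sum_le_sum h3).trans ?_
  rw [← Finset.sum_mul]
  have := half_sum_le (Finset.range N)
  have h9 : (0 : ℝ) ≤ (SF n).card := by positivity
  nlinarith

end Run7.h206.QB
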