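import Pool.Agent.Run7.h206.QB.Splice

/-! # Hanging polygons below exposed edges -/

set_option autoImplicit false

namespace Run7.h206.QB

open Run7.h206.SV
open scoped Classical

/-- the polygons with perimeter `2 ℓ`, cut at an edge of their top line, with depth `D`, whose
first site on the bottom line has the index `o` -/
noncomputable def QS (ℓ D o : ℕ) : Finset (List P) :=
  (SF (2 * ℓ - 1)).filter (fun q => q.getLast? = some (1, 0) ∧
    (∀ p ∈ q, -(D : ℤ) ≤ p.2 ∧ p.2 ≤ 0) ∧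
    q.findIdx (fun p => decide (p.2 = -(D : ℤ))) = o ∧ o < 2 * ℓ)

theorem mem_QS {ℓ D o : ℕ} (hl : 1 ≤ ℓ) {q : List P} : q ∈ QS ℓ D o ↔
    q.length = 2 * ℓ ∧ q.head? = some 0 ∧ q.IsChain Adj ∧ q.Nodup ∧ q.getLast? = some (1, 0) ∧
    (∀ p ∈ q, -(D : ℤ) ≤ p.2 ∧ p.2 ≤ 0) ∧
    q.findIdx (fun p => decide (p.2 = -(D : ℤ))) = o ∧ o < 2 * ℓ := by
  unfold QS
  rw [Finset.mem_filter, mem_SF]
  have : 2 * ℓ - 1 + 1 = 2 * ℓ := by omega
  rw [this]
  tauto

theorem chain_near {l : List P} {a p : P} (hc : l.IsChain Adj) (ha : l.head? = some a)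
    (hp : p ∈ l) : |p.1 - a.1| + 1 ≤ l.length := by
  induction l generalizing a with
  | nil => simp at hp
  | cons b l ih =>
    have hb : b = a := by simpa using ha
    subst hb
    rcases List.mem_cons.1 hp with rfl | hp
    · simp
    · cases l with
      | nil => simp at hp
      | cons c l =>
        rw [List.isChain_cons_cons] at hc
        have h1 := ih hc.2 rfl hp
        have h2 := hc.1
        unfold Adj at h2
        have h3 : |p.1 - b.1| ≤ |p.1 - c.1| + |b.1 - c.1| := by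
          have := abs_sub_le p.1 c.1 b.1
          rwa [abs_sub_comm c.1 b.1] at this
        have h4 : 0 ≤ |b.2 - c.2| := abs_nonneg _
        simp only [List.length_cons, Nat.cast_add, Nat.cast_one] at h1 ⊢
        linarith

theorem blk {b u x : ℤ} (hb : 0 < b) (h : |u - x| ≤ b) : x / b - 1 ≤ u / b ∧ u / b ≤ x / b + 1 := by
  have hb' : b ≠ 0 := hb.ne'
  rw [abs_le] at h
  constructor
  · have h1 : (x + -1 * b) / b ≤ u / b := Int.ediv_le_ediv hb (by linarith [h.1])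
    rw [Int.add_mul_ediv_right _ _ hb'] at h1
    linarith
  · have h1 : u / b ≤ (x + 1 * b) / b := Int.ediv_le_ediv hb (by linarith [h.2])
    rwa [Int.add_mul_ediv_right _ _ hb'] at h1

/-- the edge from `x` to `x + 1` at the height `y` above the lowest line is passed from left to
right, and no site of the walk in the columns nearby is lower -/
def Exp (ℓ y : ℕ) (w : List P) (x : ℤ) : Prop :=
  [((x, mh w + y) : P), (x + 1, mh w + y)] <:+: w ∧
    ∀ p ∈ w, |p.1 - x| ≤ 2 * ℓ → mh w + y ≤ p.2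

/-- the good blocks -/
noncomputable def G (ℓ y : ℕ) (c : ℤ) (w : List P) : Finset ℤ :=
  (w.toFinset.image (fun p => p.1 / (2 * (ℓ : ℤ) + 1))).filter
    (fun j => j % 4 = c ∧ ∃ x, x / (2 * (ℓ : ℤ) + 1) = j ∧ Exp ℓ y w x)

theorem mem_G {ℓ y : ℕ} {c : ℤ} {w : List P} {j : ℤ} :
    j ∈ G ℓ y c w ↔ j % 4 = c ∧ ∃ x, x / (2 * (ℓ : ℤ) + 1) = j ∧ Exp ℓ y w x := by
  unfold G
  rw [Finset.mem_filter]
  constructor
  · exact fun h => h.2
  · intro h
    refine ⟨?_, h⟩
    obtain ⟨-, x, hx, hE⟩ := h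
    rw [Finset.mem_image]
    exact ⟨_, List.mem_toFinset.2 (con_mem hE.1).1, hx⟩

/-- the chosen edge in the block `j` -/
noncomputable def xe (ℓ y : ℕ) (w : List P) (j : ℤ) : ℤ :=
  if h : ∃ x, x / (2 * (ℓ : ℤ) + 1) = j ∧ Exp ℓ y w x then Classical.choose h else 0

theorem xe_spec {ℓ y : ℕ} {c : ℤ} {w : List P} {j : ℤ} (h : j ∈ G ℓ y c w) :
    xe ℓ y w j / (2 * (ℓ : ℤ) + 1) = j ∧ Exp ℓ y w (xe ℓ y w j) := by
  rw [mem_G] at h
  unfold xe
  rw [dif_pos h.2]
  exact Classical.choose_spec h.2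

/-- what is inserted between `a` and `b` -/
noncomputable def hf (ℓ y : ℕ) (w : List P) (J : Finset ℤ) (Q : ℤ → List P) (a b : P) : List P :=
  if a.2 = mh w + y ∧ b = a + (1, 0) ∧ a.1 / (2 * (ℓ : ℤ) + 1) ∈ J ∧
      a.1 = xe ℓ y w (a.1 / (2 * (ℓ : ℤ) + 1)) then
    tr (a + (0, -1)) (Q (a.1 / (2 * (ℓ : ℤ) + 1))) else []

/-- the hung polygon in the block `j` -/
noncomputable def HQ (ℓ y : ℕ) (w : List P) (Q : ℤ → List P) (j : ℤ) : List P :=
  tr (xe ℓ y w j, mh w + y - 1) (Q j)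

/-- the walk with the hung polygons -/
noncomputable def Hg (ℓ y : ℕ) (w : List P) (J : Finset ℤ) (Q : ℤ → List P) : List P :=
  splice (hf ℓ y w J Q) w

/-- the data -/
structure Dat (ℓ y D o : ℕ) (c : ℤ) (w : List P) (J : Finset ℤ) (Q : ℤ → List P) : Prop where
  l1 : 1 ≤ ℓ
  yD : y ≤ D
  ch : w.IsChain Adj
  nd : w.Nodup
  ne : w ≠ []
  sub : J ⊆ G ℓ y c w
  q : ∀ j ∈ J, Q j ∈ QS ℓ D o

variable {ℓ y D o : ℕ} {c : ℤ} {w : List P} {J : Finset ℤ} {Q : ℤ → List P}

theorem hq_mem (H : Dat ℓ y D o c w J Q) {j : ℤ} (hj : j ∈ J) {p : P}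
    (hp : p ∈ HQ ℓ y w Q j) : |p.1 - xe ℓ y w j| ≤ 2 * ℓ ∧ mh w + y - 1 - D ≤ p.2 ∧
      p.2 ≤ mh w + y - 1 := by
  unfold HQ at hp
  rw [mem_tr] at hp
  obtain ⟨h1, h2, h3, h4, h5, h6, -, -⟩ := (mem_QS H.l1).1 (H.q j hj)
  have h7 := chain_near h3 h2 hp
  have h8 := h6 _ hp
  rw [h1] at h7
  simp only [Prod.fst_sub, Prod.snd_sub, Prod.fst_zero, sub_zero, Nat.cast_mul,
    Nat.cast_ofNat] at h7 h8
  exact ⟨by linarith, by linarith, by linarith⟩

theorem hq_block (H : Dat ℓ y D o c w J Q) {j : ℤ} (hj : j ∈ J) {p : P}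
    (hp : p ∈ HQ ℓ y w Q j) :
    j - 1 ≤ p.1 / (2 * (ℓ : ℤ) + 1) ∧ p.1 / (2 * (ℓ : ℤ) + 1) ≤ j + 1 := by
  have h1 := (hq_mem H hj hp).1
  have h2 := blk (b := 2 * (ℓ : ℤ) + 1) (by positivity) (h1.trans (by linarith))
  rw [(xe_spec (H.sub hj)).1] at h2
  exact h2

theorem hq_inj (H : Dat ℓ y D o c w J Q) {j j' : ℤ} (hj : j ∈ J) (hj' : j' ∈ J) {p : P}
    (hp : p ∈ HQ ℓ y w Q j) (hp' : p ∈ HQ ℓ y w Q j') : j = j' := by
  have h1 := hq_block H hj hp
  have h2 := hq_block H hj' hp'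
  have h3 := (mem_G.1 (H.sub hj)).1
  have h4 := (mem_G.1 (H.sub hj')).1
  omega

theorem hf_cases {a b : P} : hf ℓ y w J Q a b = [] ∨ ∃ j ∈ J,
    a = (xe ℓ y w j, mh w + y) ∧ b = (xe ℓ y w j + 1, mh w + y) ∧
      hf ℓ y w J Q a b = HQ ℓ y w Q j := by
  unfold hf
  split_ifs with h
  · right
    obtain ⟨h1, h2, h3, h4⟩ := h
    refine ⟨_, h3, ?_, ?_, ?_⟩
    · exact Prod.ext h4 h1
    · rw [h2]
      exact Prod.ext (by rw [← h4]; rfl) (by simpa using h1)
    · unfold HQ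
      congr 1
      exact Prod.ext (by rw [← h4]; simp) (by simp [h1]; ring)
  · exact Or.inl rfl

theorem hf_edge (H : Dat ℓ y D o c w J Q) {j : ℤ} (hj : j ∈ J) :
    hf ℓ y w J Q (xe ℓ y w j, mh w + y) (xe ℓ y w j + 1, mh w + y) = HQ ℓ y w Q j := by
  have h := (xe_spec (H.sub hj)).1
  unfold hf
  simp only [h]
  rw [if_pos ⟨trivial, by simp, hj, trivial⟩]
  unfold HQ
  congr 1
  simp
  ring

theorem hq_ends (H : Dat ℓ y D o c w J Q) {j : ℤ} (hj : j ∈ J) :
    (HQ ℓ y w Q j).head? = some (xe ℓ y w j, mh w + y - 1) ∧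
    (HQ ℓ y w Q j).getLast? = some (xe ℓ y w j + 1, mh w + y - 1) := by
  obtain ⟨h1, h2, h3, h4, h5, h6, -, -⟩ := (mem_QS H.l1).1 (H.q j hj)
  unfold HQ tr
  rw [List.head?_map, h2, List.getLast?_map, h5]
  simp only [Option.map_some, zero_add, Option.some.injEq, true_and]
  exact Prod.ext (add_comm _ _) (by simp)

theorem hg_chain (H : Dat ℓ y D o c w J Q) : (Hg ℓ y w J Q).IsChain Adj := by
  unfold Hg
  refine chain_splice (fun a b hab => ?_)
  rcases hf_cases (ℓ := ℓ) (y := y) (w := w) (J := J) (Q := Q) (a := a) (b := b) with h | ⟨j, hj, ha, hb, h⟩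
  · rw [h]
    have := con_adj hab H.ch
    simpa using this
  · rw [h]
    obtain ⟨h1, h2, h3, h4, h5, h6, -, -⟩ := (mem_QS H.l1).1 (H.q j hj)
    obtain ⟨e1, e2⟩ := hq_ends H hj
    rw [← List.cons_append, List.isChain_append]
    refine ⟨?_, by simp, ?_⟩
    · rw [show a :: HQ ℓ y w Q j = [a] ++ HQ ℓ y w Q j from rfl, List.isChain_append]
      refine ⟨by simp, tr_chain h3, ?_⟩
      intro u hu v hv
      rw [e1] at hv
      simp only [List.getLast?_singleton, Option.mem_def, Option.some.injEq] at hu hv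
      subst hu hv
      rw [ha]
      simp [Adj]
    · intro u hu v hv
      rw [List.getLast?_cons, e2] at hu
      simp only [Option.getD_some, Option.mem_def, Option.some.injEq, List.head?_cons] at hu hv
      subst hu hv
      rw [hb]
      simp [Adj]

theorem hg_nodup (H : Dat ℓ y D o c w J Q) : (Hg ℓ y w J Q).Nodup := by
  unfold Hg
  refine nodup_splice H.nd ?_ ?_ ?_
  · intro a b hab
    rcases hf_cases (ℓ := ℓ) (y := y) (w := w) (J := J) (Q := Q) (a := a) (b := b) with h | ⟨j, hj, ha, hb, h⟩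
    · rw [h]; exact List.nodup_nil
    · rw [h]
      exact tr_nodup ((mem_QS H.l1).1 (H.q j hj)).2.2.2.1
  · intro a b hab p hp hpw
    rcases hf_cases (ℓ := ℓ) (y := y) (w := w) (J := J) (Q := Q) (a := a) (b := b) with h | ⟨j, hj, ha, hb, h⟩
    · rw [h] at hp
      simp at hp
    · rw [h] at hp
      obtain ⟨h1, h2, h3⟩ := hq_mem H hj hp
      have := (xe_spec (H.sub hj)).2.2 p hpw h1
      linarith
  · intro a b a' b' hab hab' p hp hp'
    rcases hf_cases (ℓ := ℓ) (y := y) (w := w) (J := J) (Q := Q) (a := a) (b := b) with h | ⟨j, hj, ha, hb, h⟩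
    · rw [h] at hp
      simp at hp
    · rcases hf_cases (ℓ := ℓ) (y := y) (w := w) (J := J) (Q := Q) (a := a') (b := b') with h' | ⟨j', hj', ha', hb', h'⟩
      · rw [h'] at hp'
        simp at hp'
      · rw [h] at hp
        rw [h'] at hp'
        rw [ha, ha', hq_inj H hj hj' hp hp']

theorem mem_hg (H : Dat ℓ y D o c w J Q) {p : P} :
    p ∈ Hg ℓ y w J Q ↔ p ∈ w ∨ ∃ j ∈ J, p ∈ HQ ℓ y w Q j := by
  unfold Hg
  rw [mem_splice]
  refine or_congr Iff.rfl ?_
  constructor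
  · rintro ⟨a, b, hab, hp⟩
    rcases hf_cases (ℓ := ℓ) (y := y) (w := w) (J := J) (Q := Q) (a := a) (b := b) with h | ⟨j, hj, ha, hb, h⟩
    · rw [h] at hp
      simp at hp
    · rw [h] at hp
      exact ⟨j, hj, hp⟩
  · rintro ⟨j, hj, hp⟩
    refine ⟨_, _, (xe_spec (H.sub hj)).2.1, ?_⟩
    rw [hf_edge H hj]
    exact hp

theorem hg_length (H : Dat ℓ y D o c w J Q) :
    (Hg ℓ y w J Q).length = w.length + 2 * ℓ * J.card := by
  have h1 : (Hg ℓ y w J Q).toFinset = w.toFinset ∪ J.biUnion (fun j => (HQ ℓ y w Q j).toFinset) := by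
    ext p
    rw [List.mem_toFinset, mem_hg H, Finset.mem_union, List.mem_toFinset, Finset.mem_biUnion]
    simp only [List.mem_toFinset]
  have h2 : ((J.biUnion (fun j => (HQ ℓ y w Q j).toFinset)).card) = 2 * ℓ * J.card := by
    rw [Finset.card_biUnion]
    · rw [Finset.sum_congr rfl (g := fun _ => 2 * ℓ), Finset.sum_const, smul_eq_mul, mul_comm]
      intro j hj
      obtain ⟨h1, h2, h3, h4, -⟩ := (mem_QS H.l1).1 (H.q j hj)
      unfold HQ
      rw [List.toFinset_card_of_nodup (tr_nodup h4)]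
      unfold tr
      rw [List.length_map, h1]
    · intro j hj j' hj' hne
      rw [Function.onFun, Finset.disjoint_left]
      intro p hp hp'
      exact hne (hq_inj H hj hj' (List.mem_toFinset.1 hp) (List.mem_toFinset.1 hp'))
  have h3 : Disjoint w.toFinset (J.biUnion (fun j => (HQ ℓ y w Q j).toFinset)) := by
    rw [Finset.disjoint_left]
    intro p hp hp'
    rw [Finset.mem_biUnion] at hp'
    obtain ⟨j, hj, hp'⟩ := hp'
    obtain ⟨e1, e2, e3⟩ := hq_mem H hj (List.mem_toFinset.1 hp')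
    have := (xe_spec (H.sub hj)).2.2 p (List.mem_toFinset.1 hp) e1
    linarith
  have h4 := congrArg Finset.card h1
  rw [Finset.card_union_of_disjoint h3, h2, List.toFinset_card_of_nodup H.nd,
    List.toFinset_card_of_nodup (hg_nodup H)] at h4
  exact h4

theorem hg_head : (Hg ℓ y w J Q).head? = w.head? := head_splice w

theorem hq_bottom (H : Dat ℓ y D o c w J Q) {j : ℤ} (hj : j ∈ J) :
    (HQ ℓ y w Q j).findIdx (fun p => decide (p.2 = mh w + y - 1 - D)) = o ∧ o < 2 * ℓ := by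
  obtain ⟨h1, h2, h3, h4, h5, h6, h7, h8⟩ := (mem_QS H.l1).1 (H.q j hj)
  refine ⟨?_, h8⟩
  unfold HQ tr
  rw [List.findIdx_map]
  rw [← h7]
  congr 1
  funext p
  simp only [Function.comp, Prod.snd_add, decide_eq_decide]
  constructor <;> intro h <;> linarith

theorem hg_mh (H : Dat ℓ y D o c w J Q) (hJ : J.Nonempty) :
    mh (Hg ℓ y w J Q) = mh w + y - 1 - D := by
  have hne : Hg ℓ y w J Q ≠ [] := by
    intro h
    have := hg_length H
    rw [h] at this
    have h2 := List.length_pos_iff.2 H.ne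
    simp at this
    omega
  apply le_antisymm
  · obtain ⟨j, hj⟩ := hJ
    obtain ⟨h1, h2⟩ := hq_bottom H hj
    have hlen : (HQ ℓ y w Q j).length = 2 * ℓ := by
      unfold HQ tr
      rw [List.length_map]
      exact ((mem_QS H.l1).1 (H.q j hj)).1
    have h3 : (HQ ℓ y w Q j).findIdx (fun p => decide (p.2 = mh w + y - 1 - D)) <
        (HQ ℓ y w Q j).length := by rw [h1, hlen]; exact h2
    rw [List.findIdx_lt_length] at h3
    obtain ⟨p, hp, h4⟩ := h3
    rw [decide_eq_true_eq] at h4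
    rw [← h4]
    exact mh_le ((mem_hg H).2 (Or.inr ⟨j, hj, hp⟩))
  · obtain ⟨p, hp, h⟩ := mh_mem hne
    rw [← h]
    rcases (mem_hg H).1 hp with hp | ⟨j, hj, hp⟩
    · have := mh_le hp
      have h2 : (y : ℤ) ≤ D := by exact_mod_cast H.yD
      linarith
    · exact (hq_mem H hj hp).2.1

theorem bottom_block (H : Dat ℓ y D o c w J Q) (hJ : J.Nonempty) {p : P}
    (hp : p ∈ Hg ℓ y w J Q) (h : p.2 = mh (Hg ℓ y w J Q)) : ∃ j ∈ J, p ∈ HQ ℓ y w Q j := by
  rw [hg_mh H hJ] at h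
  rcases (mem_hg H).1 hp with hp | hp
  · have := mh_le hp
    have h2 : (y : ℤ) ≤ D := by exact_mod_cast H.yD
    linarith
  · exact hp

/-- the blocks can be read off -/
theorem mem_J (H : Dat ℓ y D o c w J Q) (hJ : J.Nonempty) {j : ℤ} : j ∈ J ↔ j % 4 = c ∧
    ∃ p ∈ Hg ℓ y w J Q, p.2 = mh (Hg ℓ y w J Q) ∧ j - 1 ≤ p.1 / (2 * (ℓ : ℤ) + 1) ∧
      p.1 / (2 * (ℓ : ℤ) + 1) ≤ j + 1 := by
  constructor
  · intro hj
    refine ⟨(mem_G.1 (H.sub hj)).1, ?_⟩
    obtain ⟨h1, h2⟩ := hq_bottom H hj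
    have hlen : (HQ ℓ y w Q j).length = 2 * ℓ := by
      unfold HQ tr
      rw [List.length_map]
      exact ((mem_QS H.l1).1 (H.q j hj)).1
    have h3 : (HQ ℓ y w Q j).findIdx (fun p => decide (p.2 = mh w + y - 1 - D)) <
        (HQ ℓ y w Q j).length := by rw [h1, hlen]; exact h2
    rw [List.findIdx_lt_length] at h3
    obtain ⟨p, hp, h4⟩ := h3
    rw [decide_eq_true_eq] at h4
    refine ⟨p, (mem_hg H).2 (Or.inr ⟨j, hj, hp⟩), ?_, hq_block H hj hp⟩
    rw [hg_mh H hJ, h4]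
  · rintro ⟨hc, p, hp, h, hb⟩
    obtain ⟨j', hj', hp'⟩ := bottom_block H hJ hp h
    have h1 := hq_block H hj' hp'
    have h2 := (mem_G.1 (H.sub hj')).1
    have : j = j' := by omega
    rw [this]
    exact hj'

theorem fidx_congr {f g : P → Bool} {l : List P} (h : ∀ p ∈ l, f p = g p) :
    l.findIdx f = l.findIdx g := by
  induction l with
  | nil => rfl
  | cons a l ih =>
    rw [List.findIdx_cons, List.findIdx_cons, h a List.mem_cons_self,
      ih (fun p hp => h p (List.mem_cons_of_mem _ hp))]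

/-- the index of the first bottom site near the block `j` -/
noncomputable def fi (ℓ : ℕ) (v : List P) (j : ℤ) : ℕ :=
  v.findIdx (fun p => decide (p.2 = mh v ∧ j - 1 ≤ p.1 / (2 * (ℓ : ℤ) + 1) ∧
      p.1 / (2 * (ℓ : ℤ) + 1) ≤ j + 1))

theorem segment (H : Dat ℓ y D o c w J Q) (hJ : J.Nonempty) {j : ℤ} (hj : j ∈ J) :
    HQ ℓ y w Q j = ((Hg ℓ y w J Q).drop (fi ℓ (Hg ℓ y w J Q) j - o)).take (2 * ℓ) := by
  obtain ⟨A, B, hAB⟩ := split_splice (f := hf ℓ y w J Q) (xe_spec (H.sub hj)).2.1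
  rw [hf_edge H hj] at hAB
  have hAB' : Hg ℓ y w J Q = A ++ (HQ ℓ y w Q j ++ B) := hAB
  have hlen : (HQ ℓ y w Q j).length = 2 * ℓ := by
    unfold HQ tr
    rw [List.length_map]
    exact ((mem_QS H.l1).1 (H.q j hj)).1
  have hnd := hg_nodup H
  obtain ⟨h1, h2⟩ := hq_bottom H hj
  have hfi : fi ℓ (Hg ℓ y w J Q) j = A.length + o := by
    unfold fi
    rw [hg_mh H hJ, hAB', List.findIdx_append, if_neg, List.findIdx_append, if_pos, fidx_congr
      (g := fun p => decide (p.2 = mh w + y - 1 - D)), h1, add_comm]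
    · intro p hp
      have := hq_block H hj hp
      simp only [this, and_true]
    · rw [fidx_congr (g := fun p => decide (p.2 = mh w + y - 1 - D)), h1, hlen]
      · exact h2
      · intro p hp
        have := hq_block H hj hp
        simp only [this, and_true]
    · rw [List.findIdx_lt_length]
      rintro ⟨p, hp, hpp⟩
      rw [decide_eq_true_eq] at hpp
      have hpv : p ∈ Hg ℓ y w J Q := by
        rw [hAB']
        exact List.mem_append_left _ hp
      obtain ⟨j', hj', hp'⟩ := bottom_block H hJ hpv (by rw [hg_mh H hJ]; exact hpp.1)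
      have e1 := hq_block H hj' hp'
      have e2 := (mem_G.1 (H.sub hj')).1
      have e3 := (mem_G.1 (H.sub hj)).1
      have e4 : j' = j := by omega
      subst e4
      rw [hAB', List.nodup_append] at hnd
      exact hnd.2.2 p hp p (List.mem_append_left _ hp') rfl
  rw [hfi, Nat.add_sub_cancel, hAB', List.drop_left, ← hlen, List.take_left]

theorem hg_filter (H : Dat ℓ y D o c w J Q) :
    (Hg ℓ y w J Q).filter (fun p => ¬ ∃ j ∈ J, p ∈ HQ ℓ y w Q j) = w := by
  unfold Hg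
  refine filter_splice (fun p => ∃ j ∈ J, p ∈ HQ ℓ y w Q j) ?_ ?_
  · rintro p hp ⟨j, hj, hpj⟩
    obtain ⟨e1, e2, e3⟩ := hq_mem H hj hpj
    have := (xe_spec (H.sub hj)).2.2 p hp e1
    linarith
  · intro a b hab p hp
    rcases hf_cases (ℓ := ℓ) (y := y) (w := w) (J := J) (Q := Q) (a := a) (b := b) with h | ⟨j, hj, ha, hb, h⟩
    · rw [h] at hp
      simp at hp
    · rw [h] at hp
      exact ⟨j, hj, hp⟩

/-- the walk, the blocks and the polygons can be reconstructed -/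
theorem hg_inj {w' : List P} {J' : Finset ℤ} {Q' : ℤ → List P} (H : Dat ℓ y D o c w J Q)
    (H' : Dat ℓ y D o c w' J' Q') (hJ : J.Nonempty) (hJ' : J'.Nonempty)
    (h : Hg ℓ y w J Q = Hg ℓ y w' J' Q') : w = w' ∧ J = J' ∧ ∀ j ∈ J, Q j = Q' j := by
  have h1 : J = J' := by
    ext j
    rw [mem_J H hJ, mem_J H' hJ', h]
  subst h1
  have h2 : ∀ j ∈ J, HQ ℓ y w Q j = HQ ℓ y w' Q' j := by
    intro j hj
    rw [segment H hJ hj, segment H' hJ' hj, h]
  have h3 : w = w' := by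
    rw [← hg_filter H, ← hg_filter H', h]
    apply List.filter_congr
    intro p _
    rw [decide_eq_decide]
    apply not_congr
    constructor
    · rintro ⟨j, hj, hp⟩
      exact ⟨j, hj, by rw [← h2 j hj]; exact hp⟩
    · rintro ⟨j, hj, hp⟩
      exact ⟨j, hj, by rw [h2 j hj]; exact hp⟩
  subst h3
  refine ⟨rfl, rfl, fun j hj => ?_⟩
  have h4 := h2 j hj
  unfold HQ tr at h4
  exact List.map_injective_iff.2 (fun p q h => by simpa using h) h4

end Run7.h206.QB
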