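import Pool.Agent.Run7.h206.QB.Poly

/-! # The number of sites near the lowest line -/

set_option autoImplicit false

namespace Run7.h206.QB

open Run7.h206.SV
open scoped Classical
open Pool.Agent.W840.CT (cn)
open Pool.Agent.TH546.SAW (PL card_PL)

theorem grow (m n r : ℕ) : ((SF (n + m * r)).card : ℝ) ≤ (cn m : ℝ) ^ r * (SF n).card := by
  rw [card_SF_cn, card_SF_cn]
  induction r with
  | zero => simp
  | succ r ih =>
    have h := Pool.Agent.TH546.SAW.cn_add_le (n + m * r) m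
    rw [show n + m * (r + 1) = n + m * r + m by ring, pow_succ]
    calc (cn (n + m * r + m) : ℝ) ≤ cn (n + m * r) * cn m := h
      _ ≤ ((cn m : ℝ) ^ r * cn n) * cn m := by gcongr
      _ = _ := by ring

theorem cn_real_pos (n : ℕ) : (0 : ℝ) < cn n := lt_of_lt_of_le one_pos (Pool.Agent.W840.CT.cn_pos n)

/-- the reflected walks -/
theorem sum_mi (n : ℕ) (F : List P → ℝ) : ∑ w ∈ SF n, F (w.map mi) = ∑ w ∈ SF n, F w := by
  have hmem : ∀ w ∈ SF n, w.map mi ∈ SF n := by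
    intro w hw
    rw [mem_SF] at hw ⊢
    obtain ⟨h1, h2, h3, h4⟩ := hw
    refine ⟨by simpa using h1, ?_, ?_, ?_⟩
    · rw [List.head?_map, h2]
      simp [mi]
    · rw [List.isChain_map]
      refine h3.imp (fun p q h => ?_)
      unfold Adj at h ⊢
      simp only [mi]
      rw [← h, abs_sub_comm]
      congr 2
      ring
    · refine h4.map ?_
      intro p q h
      have := congrArg mi h
      rwa [mi_mi, mi_mi] at this
  have hinv : ∀ w : List P, (w.map mi).map mi = w := by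
    intro w
    rw [List.map_map]
    have : mi ∘ mi = id := by
      funext p
      exact mi_mi p
    rw [this, List.map_id]
  exact Finset.sum_nbij' (fun w => w.map mi) (fun w => w.map mi) hmem hmem
    (fun w _ => hinv w) (fun w _ => hinv w) (fun w _ => rfl)

/-- total number of good blocks -/
noncomputable def TT (ℓ h : ℕ) (w : List P) : ℕ :=
  ∑ i ∈ IX h, ((G ℓ i.1 i.2 w).card + (G ℓ i.1 i.2 (w.map mi)).card)

theorem exp_TT {ℓ D o h : ℕ} (hl : 1 ≤ ℓ) (hD : h ≤ D) {q lam : ℝ}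
    (hq : q = (QS ℓ D o).card / (2 * (cn (2 * ℓ) : ℝ))) (hlam : lam = Real.log (1 + q)) (n : ℕ) :
    ∑ w ∈ SF n, Real.exp (lam * TT ℓ h w / (8 * (h + 1))) ≤ 2 * ((SF n).card : ℝ) := by
  have hM := cn_real_pos (2 * ℓ)
  have hq0 : 0 ≤ q := by rw [hq]; positivity
  have he : ∀ k : ℕ, Real.exp (lam * k) = (1 + q) ^ k := by
    intro k
    rw [mul_comm, Real.exp_nat_mul, hlam, Real.exp_log (by linarith)]
  have h1 : ∀ i ∈ IX h, ∑ w ∈ SF n, (1 + q) ^ (G ℓ i.1 i.2 w).card ≤ 2 * ((SF n).card : ℝ) := by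
    intro i hi
    unfold IX at hi
    rw [Finset.mem_product, Finset.mem_range] at hi
    rw [hq]
    exact exp_G (D := D) (o := o) hl (by omega) i.2 hM (fun n r => grow (2 * ℓ) n r) n
  have h1' : ∀ i ∈ IX h, ∑ w ∈ SF n, (1 + q) ^ (G ℓ i.1 i.2 (w.map mi)).card ≤
      2 * ((SF n).card : ℝ) := by
    intro i hi
    rw [sum_mi n (fun w => (1 + q) ^ (G ℓ i.1 i.2 w).card)]
    exact h1 i hi
  have hN : (0 : ℝ) < 8 * (h + 1) := by positivity
  have key : ∀ w : List P, Real.exp (lam * TT ℓ h w / (8 * (h + 1))) ≤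
      (1 / (8 * ((h : ℝ) + 1))) * ∑ i ∈ IX h, ((1 + q) ^ (G ℓ i.1 i.2 w).card +
        (1 + q) ^ (G ℓ i.1 i.2 (w.map mi)).card) := by
    intro w
    have hc := convexOn_exp.map_sum_le (t := IX h ×ˢ (Finset.univ : Finset Bool))
      (w := fun _ => 1 / (8 * ((h : ℝ) + 1)))
      (p := fun i => lam * (if i.2 then ((G ℓ i.1.1 i.1.2 w).card : ℝ) else
        ((G ℓ i.1.1 i.1.2 (w.map mi)).card : ℝ))) (fun _ _ => by positivity)
      (by
        rw [Finset.sum_const, Finset.card_product, card_IX, nsmul_eq_mul]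
        simp only [Finset.card_univ, Fintype.card_bool]
        push_cast
        field_simp
        norm_num) (fun _ _ => Set.mem_univ _)
    rw [Finset.sum_product, Finset.sum_product] at hc
    simp only [Fintype.sum_bool, smul_eq_mul, if_true, Bool.false_eq_true, if_false, he] at hc
    refine le_trans (le_of_eq ?_) (hc.trans (le_of_eq ?_))
    · congr 1
      unfold TT
      push_cast
      rw [Finset.mul_sum, Finset.sum_div]
      refine Finset.sum_congr rfl (fun i _ => ?_)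
      ring
    · rw [Finset.mul_sum]
      refine Finset.sum_congr rfl (fun i _ => ?_)
      ring
  refine (Finset.sum_le_sum (fun w _ => key w)).trans ?_
  rw [← Finset.mul_sum, Finset.sum_comm]
  have h2 : ∀ i ∈ IX h, ∑ w ∈ SF n, ((1 + q) ^ (G ℓ i.1 i.2 w).card +
      (1 + q) ^ (G ℓ i.1 i.2 (w.map mi)).card) ≤ 4 * ((SF n).card : ℝ) := by
    intro i hi
    rw [Finset.sum_add_distrib]
    linarith [h1 i hi, h1' i hi]
  refine (mul_le_mul_of_nonneg_left (Finset.sum_le_sum h2) (by positivity)).trans (le_of_eq ?_)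
  rw [Finset.sum_const, card_IX, nsmul_eq_mul]
  push_cast
  field_simp
  ring

theorem card_St_le {ℓ h n : ℕ} {w : List P} (hw : w ∈ SF n) :
    ((St h w).card : ℝ) ≤ (2 + 2 * TT ℓ h w) * ((2 * h + 1) * (2 * ℓ + 1) * (h + 1)) := by
  obtain ⟨h1, h2, h3, h4⟩ := mem_SF.1 hw
  have e1 := card_St (ℓ := ℓ) (h := h) (w := w)
  have e2 := card_Lo (ℓ := ℓ) (h := h) h3 h4
  have e3 : (St h w).card ≤ (2 + 2 * TT ℓ h w) * ((2 * h + 1) * (2 * ℓ + 1) * (h + 1)) :=
    e1.trans (Nat.mul_le_mul_right _ e2)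
  exact_mod_cast e3

/-- the constants -/
theorem constants : ∃ K : ℝ, 0 ≤ K ∧ ∀ h : ℕ, ∃ ℓ D o : ℕ, 1 ≤ ℓ ∧ h ≤ D ∧
    ∃ R : ℝ, 1 ≤ R ∧ 2 * (cn (2 * ℓ) : ℝ) ≤ R * (QS ℓ D o).card ∧
      12 * ((2 * h + 1) * (2 * ℓ + 1) * (h + 1)) * (8 * (h + 1)) * R ≤
        Real.exp (K * Real.log (h + 2) ^ 2) := by
  obtain ⟨K1, hK1, hlow⟩ := Pool.Agent.TH508.LT.sq_PP2
  obtain ⟨K2, hK2, hup⟩ := Pool.Agent.TH508.LT.sq_upper2
  refine ⟨9 * K2 + 4 * K1 + 41, by positivity, fun h => ?_⟩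
  set s : ℕ := h + 2 with hs
  have hs2 : 2 ≤ s := by omega
  have hl2 : 2 ≤ s ^ 2 := by nlinarith
  obtain ⟨D, o, hD, hmany⟩ := many (ℓ := s ^ 2) hl2 (d := s) (by nlinarith)
  have hsr : (2 : ℝ) ≤ s := by exact_mod_cast hs2
  have hs0 : (0 : ℝ) < s := by linarith
  have hlog : Real.log 2 ≤ Real.log s := Real.log_le_log (by norm_num) hsr
  have hlog2 := Real.log_two_gt_d9
  have hls : 0 < Real.log s := by linarith
  have hmu := H981.mu_pos
  refine ⟨s ^ 2, D, o, by omega, by omega,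
    64 * (s : ℝ) ^ 6 * Real.exp ((9 * K2 + 4 * K1) * Real.log s ^ 2), ?_, ?_, ?_⟩
  · have h1 : 1 ≤ Real.exp ((9 * K2 + 4 * K1) * Real.log s ^ 2) := Real.one_le_exp (by positivity)
    have h2 : (1 : ℝ) ≤ (s : ℝ) ^ 6 := one_le_pow₀ (by linarith)
    nlinarith
  · -- the count
    have h1 := (hlow (s ^ 2) hl2).1
    have h2 := hup (2 * s ^ 2) (by omega)
    rw [← Pool.Agent.W840.CT.cn_eq] at h2
    have hPL : ((PL (s ^ 2)).card : ℝ) = 4 * ((s ^ 2 : ℕ) : ℝ) * H981.PP (s ^ 2) :=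
      card_PL (by omega)
    have hPP : 0 < H981.PP (s ^ 2) := lt_of_lt_of_le (by positivity) h1
    have h3 : H981.PP (s ^ 2) ≤ ((PL (s ^ 2)).card : ℝ) := by
      rw [hPL]
      have : (1 : ℝ) ≤ ((s ^ 2 : ℕ) : ℝ) := by exact_mod_cast (by omega : 1 ≤ s ^ 2)
      nlinarith
    have h4 : ((PL (s ^ 2)).card : ℝ) ≤ 32 * (s : ℝ) ^ 6 * (QS (s ^ 2) D o).card := by
      have : ((PL (s ^ 2)).card : ℝ) ≤ 32 * ((s : ℝ) ^ 2) ^ 3 * (QS (s ^ 2) D o).card := by
        exact_mod_cast hmany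
      rw [← pow_mul] at this
      exact this
    have h5 : H981.mu ^ (2 * s ^ 2) ≤ Real.exp (K1 * Real.log ((s ^ 2 : ℕ) : ℝ) ^ 2) *
        (32 * (s : ℝ) ^ 6 * (QS (s ^ 2) D o).card) := by
      have h6 := (h1.trans h3).trans h4
      have h7 : Real.exp (K1 * Real.log ((s ^ 2 : ℕ) : ℝ) ^ 2) *
          Real.exp (-(K1 * Real.log ((s ^ 2 : ℕ) : ℝ) ^ 2)) = 1 := by
        rw [← Real.exp_add]
        simp
      calc H981.mu ^ (2 * s ^ 2) = Real.exp (K1 * Real.log ((s ^ 2 : ℕ) : ℝ) ^ 2) *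
            (H981.mu ^ (2 * s ^ 2) * Real.exp (-(K1 * Real.log ((s ^ 2 : ℕ) : ℝ) ^ 2))) := by
            rw [mul_left_comm, h7, mul_one]
        _ ≤ _ := by gcongr
    have e1 : Real.log ((s ^ 2 : ℕ) : ℝ) = 2 * Real.log s := by
      push_cast
      rw [Real.log_pow]
      push_cast
      ring
    have e2 : Real.log ((2 * s ^ 2 : ℕ) : ℝ) ≤ 3 * Real.log s := by
      push_cast
      rw [Real.log_mul (by norm_num) (by positivity), Real.log_pow]
      push_cast
      linarith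
    have e3 : 0 ≤ Real.log ((2 * s ^ 2 : ℕ) : ℝ) := Real.log_natCast_nonneg _
    have e4 : Real.log ((2 * s ^ 2 : ℕ) : ℝ) ^ 2 ≤ 9 * Real.log s ^ 2 := by
      calc Real.log ((2 * s ^ 2 : ℕ) : ℝ) ^ 2 ≤ (3 * Real.log s) ^ 2 := by gcongr
        _ = _ := by ring
    rw [e1] at h5
    calc 2 * (cn (2 * s ^ 2) : ℝ)
        ≤ 2 * (H981.mu ^ (2 * s ^ 2) * Real.exp (K2 * Real.log ((2 * s ^ 2 : ℕ) : ℝ) ^ 2)) := by
          gcongr
      _ ≤ 2 * ((Real.exp (K1 * (2 * Real.log s) ^ 2) *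
          (32 * (s : ℝ) ^ 6 * (QS (s ^ 2) D o).card)) * Real.exp (K2 * (9 * Real.log s ^ 2))) := by
          gcongr
      _ = 64 * (s : ℝ) ^ 6 * (Real.exp (K1 * (2 * Real.log s) ^ 2) *
          Real.exp (K2 * (9 * Real.log s ^ 2))) * (QS (s ^ 2) D o).card := by ring
      _ = _ := by
          rw [← Real.exp_add]
          congr 3
          ring_nf
  · have b1 : (2 * (h : ℝ) + 1) ≤ 2 * s := by rw [hs]; push_cast; linarith
    have b2 : (2 * ((s ^ 2 : ℕ) : ℝ) + 1) ≤ 3 * (s : ℝ) ^ 2 := by push_cast; nlinarith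
    have b3 : ((h : ℝ) + 1) ≤ s := by rw [hs]; push_cast; linarith
    have hh0 : (0 : ℝ) ≤ h := by positivity
    have b4 : (h : ℝ) + 2 = s := by rw [hs]; push_cast; ring
    rw [b4]
    have b5 : (36864 : ℝ) ≤ (s : ℝ) ^ 16 := by
      calc (36864 : ℝ) ≤ 2 ^ 16 := by norm_num
        _ ≤ _ := by gcongr
    have b6 : (s : ℝ) ^ 27 = Real.exp (27 * Real.log s) := by
      rw [show (27 : ℝ) * Real.log s = ((27 : ℕ) : ℝ) * Real.log s by norm_num,
        Real.exp_nat_mul, Real.exp_log hs0]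
    have b7 : 27 * Real.log s ≤ 41 * Real.log s ^ 2 := by nlinarith
    set E := Real.exp ((9 * K2 + 4 * K1) * Real.log s ^ 2) with hE
    have hE0 : 0 < E := Real.exp_pos _
    calc 12 * ((2 * (h : ℝ) + 1) * (2 * ((s ^ 2 : ℕ) : ℝ) + 1) * (h + 1)) * (8 * (h + 1)) *
          (64 * (s : ℝ) ^ 6 * E)
        ≤ 12 * ((2 * s) * (3 * (s : ℝ) ^ 2) * s) * (8 * s) * (64 * (s : ℝ) ^ 6 * E) := by gcongr
      _ = 36864 * (s : ℝ) ^ 11 * E := by ring
      _ ≤ (s : ℝ) ^ 16 * (s : ℝ) ^ 11 * E := by gcongr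
      _ = (s : ℝ) ^ 27 * E := by ring
      _ ≤ Real.exp (41 * Real.log s ^ 2) * E := by
          rw [b6]
          gcongr
      _ = _ := by
          rw [hE, ← Real.exp_add]
          congr 1
          ring

/-- the tail and the mean for one side -/
theorem side : ∃ K : ℝ, 0 ≤ K ∧ ∀ n h : ℕ,
    (∀ x : ℝ, 0 ≤ x → (((SF n).filter (fun w =>
      (1 + x) * Real.exp (K * Real.log (h + 2) ^ 2) < ((St h w).card : ℝ))).card : ℝ) ≤
        Real.exp (-x) * (SF n).card) ∧
    ∑ w ∈ SF n, ((St h w).card : ℝ) ≤ Real.exp (K * Real.log (h + 2) ^ 2) * (SF n).card := by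
  obtain ⟨K, hK, hconst⟩ := constants
  refine ⟨K, hK, fun n h => ?_⟩
  obtain ⟨ℓ, D, o, hl, hD, R, hR, hRQ, hfin⟩ := hconst h
  set q : ℝ := (QS ℓ D o).card / (2 * (cn (2 * ℓ) : ℝ)) with hq
  set lam : ℝ := Real.log (1 + q) with hlam
  set B : ℝ := (2 * (h : ℝ) + 1) * (2 * ℓ + 1) * (h + 1) with hB
  have hB1 : 1 ≤ B := by
    rw [hB]
    have a1 : (1 : ℝ) ≤ 2 * (h : ℝ) + 1 := by linarith [Nat.cast_nonneg (α := ℝ) h]
    have a2 : (1 : ℝ) ≤ 2 * (ℓ : ℝ) + 1 := by linarith [Nat.cast_nonneg (α := ℝ) ℓ]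
    have a3 : (1 : ℝ) ≤ (h : ℝ) + 1 := by linarith [Nat.cast_nonneg (α := ℝ) h]
    exact one_le_mul_of_one_le_of_one_le (one_le_mul_of_one_le_of_one_le a1 a2) a3
  have hM := cn_real_pos (2 * ℓ)
  have hQ : (0 : ℝ) < (QS ℓ D o).card := by
    by_contra hcon
    have : ((QS ℓ D o).card : ℝ) = 0 := le_antisymm (not_lt.1 hcon) (Nat.cast_nonneg _)
    rw [this, mul_zero] at hRQ
    linarith
  have hq0 : 0 < q := by rw [hq]; positivity
  have hq1 : 1 ≤ R * q := by
    rw [hq, ← mul_div_assoc, le_div_iff₀ (by positivity), one_mul]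
    exact hRQ
  have hlam0 : 0 < lam := Real.log_pos (by linarith)
  -- `1 / lam ≤ 2 R`
  have hlamR : 1 ≤ lam * (2 * R) := by
    have h1 : q / (1 + q) ≤ lam := by
      have := Real.one_sub_inv_le_log_of_pos (by linarith : (0 : ℝ) < 1 + q)
      rw [hlam]
      refine le_trans (le_of_eq ?_) this
      field_simp
      ring
    have h2 : 1 / (2 * R) ≤ q / (1 + q) := by
      rw [div_le_div_iff₀ (by positivity) (by positivity)]
      nlinarith
    have h3 := h2.trans h1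
    rwa [div_le_iff₀ (by positivity)] at h3
  have hexp := exp_TT (h := h) hl hD hq hlam n
  set N : ℝ := 8 * ((h : ℝ) + 1) with hN
  have hN8 : 8 ≤ N := by rw [hN]; linarith [Nat.cast_nonneg (α := ℝ) h]
  have hSt : ∀ w ∈ SF n, ((St h w).card : ℝ) ≤ (2 + 2 * TT ℓ h w) * B :=
    fun w hw => card_St_le hw
  constructor
  · intro x hx
    have h1 : (((SF n).filter (fun w =>
        (1 + x) * Real.exp (K * Real.log (h + 2) ^ 2) < ((St h w).card : ℝ))).card : ℝ) *
        Real.exp (x + 1) ≤ 2 * (SF n).card := by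
      refine le_trans ?_ hexp
      rw [← nsmul_eq_mul, ← Finset.sum_const]
      refine (Finset.sum_le_sum (fun w hw => ?_)).trans
        (Finset.sum_le_sum_of_subset_of_nonneg (Finset.filter_subset _ _)
          (fun w _ _ => (Real.exp_pos _).le))
      obtain ⟨hw, hbad⟩ := Finset.mem_filter.1 hw
      apply Real.exp_le_exp.2
      by_contra hcon
      rw [not_le, div_lt_iff₀ (by linarith)] at hcon
      -- then the number of sites is small
      have h2 : (TT ℓ h w : ℝ) ≤ 2 * R * ((x + 1) * N) := by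
        have hT0 : (0 : ℝ) ≤ TT ℓ h w := Nat.cast_nonneg _
        calc (TT ℓ h w : ℝ) = 1 * TT ℓ h w := (one_mul _).symm
          _ ≤ (lam * (2 * R)) * TT ℓ h w := by gcongr
          _ = 2 * R * (lam * TT ℓ h w) := by ring
          _ ≤ 2 * R * ((x + 1) * N) := by gcongr
      have h3 := hSt w hw
      have h4 : (2 + 2 * (TT ℓ h w : ℝ)) * B ≤ (1 + x) * (6 * B * N * R) := by
        have h5 : 2 + 2 * (TT ℓ h w : ℝ) ≤ (1 + x) * (6 * N * R) := by
          have h6 : 1 ≤ N * R := by nlinarith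
          nlinarith
        calc (2 + 2 * (TT ℓ h w : ℝ)) * B ≤ ((1 + x) * (6 * N * R)) * B := by gcongr
          _ = _ := by ring
      have h5 : (1 + x) * (6 * B * N * R) ≤ (1 + x) * Real.exp (K * Real.log (h + 2) ^ 2) := by
        have h6 : 6 * B * N * R ≤ Real.exp (K * Real.log (h + 2) ^ 2) := by
          refine le_trans ?_ hfin
          have : 0 ≤ B * N * R := by positivity
          nlinarith
        gcongr
      linarith
    have h2 : Real.exp (x + 1) * Real.exp (-x) = Real.exp 1 := by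
      rw [← Real.exp_add]
      congr 1
      ring
    have h3 := Real.exp_one_gt_d9
    have h4 := Real.exp_pos (-x)
    have h5 : (0 : ℝ) ≤ (SF n).card := Nat.cast_nonneg _
    set X := (((SF n).filter (fun w =>
        (1 + x) * Real.exp (K * Real.log (h + 2) ^ 2) < ((St h w).card : ℝ))).card : ℝ) with hX
    have h6 : X * Real.exp 1 ≤ 2 * (SF n).card * Real.exp (-x) := by
      calc X * Real.exp 1 = X * Real.exp (x + 1) * Real.exp (-x) := by rw [← h2]; ring
        _ ≤ 2 * (SF n).card * Real.exp (-x) := by gcongr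
    have hX0 : 0 ≤ X := Nat.cast_nonneg _
    nlinarith
  · have h1 : ∑ w ∈ SF n, (TT ℓ h w : ℝ) ≤ 2 * R * N * ((2 : ℝ) * (SF n).card) := by
      calc ∑ w ∈ SF n, (TT ℓ h w : ℝ)
          ≤ ∑ w ∈ SF n, 2 * R * N * Real.exp (lam * TT ℓ h w / N) := by
            refine Finset.sum_le_sum (fun w _ => ?_)
            have hT0 : (0 : ℝ) ≤ TT ℓ h w := Nat.cast_nonneg _
            have h2 := Real.add_one_le_exp (lam * TT ℓ h w / N)
            calc (TT ℓ h w : ℝ) = 1 * TT ℓ h w := (one_mul _).symm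
              _ ≤ (lam * (2 * R)) * TT ℓ h w := by gcongr
              _ = 2 * R * N * (lam * TT ℓ h w / N) := by field_simp
              _ ≤ 2 * R * N * Real.exp (lam * TT ℓ h w / N) := by
                  gcongr
                  linarith
        _ = 2 * R * N * ∑ w ∈ SF n, Real.exp (lam * TT ℓ h w / N) := by rw [Finset.mul_sum]
        _ ≤ _ := by gcongr
    have h2 : (0 : ℝ) ≤ (SF n).card := Nat.cast_nonneg _
    have h3 : (2 + 8 * R * N) * B ≤ Real.exp (K * Real.log (h + 2) ^ 2) := by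
      refine le_trans ?_ hfin
      have h4 : 1 ≤ R * N := by nlinarith
      have h5 : 0 ≤ B := by linarith
      have h6 : (2 + 8 * R * N) * B ≤ (10 * R * N) * B := by
        gcongr
        nlinarith
      have h7 : 0 ≤ R * N * B := by positivity
      nlinarith
    calc ∑ w ∈ SF n, ((St h w).card : ℝ) ≤ ∑ w ∈ SF n, (2 + 2 * (TT ℓ h w : ℝ)) * B :=
          Finset.sum_le_sum hSt
      _ = (2 * (SF n).card + 2 * ∑ w ∈ SF n, (TT ℓ h w : ℝ)) * B := by
          rw [← Finset.sum_mul, Finset.sum_add_distrib, Finset.sum_const, nsmul_eq_mul,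
            ← Finset.mul_sum]
          ring
      _ ≤ (2 * (SF n).card + 2 * (2 * R * N * ((2 : ℝ) * (SF n).card))) * B := by gcongr
      _ = (2 + 8 * R * N) * B * (SF n).card := by ring
      _ ≤ _ := by gcongr

end Run7.h206.QB
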