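import Pool.Agent.Run7.h206.QB.Blocks
import Pool.Agent.TH546.SAW.Poly
import Pool.Agent.TH508.LT.Fin2

/-! # The number of polygons which can be hung -/

set_option autoImplicit false

namespace Run7.h206.QB

open Run7.h206.SV
open scoped Classical
open Pool.Agent.TH546.SAW (PL mem_PL card_PL cast_inj)

theorem Adj_eq : Adj = Pool.Agent.W840.CT.adj := by
  funext p q
  unfold Adj Pool.Agent.W840.CT.adj
  rw [abs_sub_comm p.1, abs_sub_comm p.2]

theorem coe_SF_LS (n : ℕ) : (SF n : Set (List P)) = Pool.Agent.W840.CT.LS n := by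
  ext l
  rw [Finset.mem_coe, mem_SF, Adj_eq]
  rfl

theorem card_SF_cn (n : ℕ) : (SF n).card = Pool.Agent.W840.CT.cn n := by
  rw [← Set.ncard_coe_finset, coe_SF_LS]
  apply le_antisymm
  · exact Pool.Agent.W840.CT.LS_le n
  · unfold Pool.Agent.W840.CT.cn
    have h1 : Nat.card {ω : Fin (n + 1) → ℤ × ℤ // Pool.Agent.W840.CT.SW n ω} =
        ({ω | Pool.Agent.W840.CT.SW n ω} : Set (Fin (n + 1) → ℤ × ℤ)).ncard :=
      Nat.card_coe_set_eq _
    rw [h1]
    refine Set.ncard_le_ncard_of_injOn (fun ω => Pool.Agent.W840.CT.li ω)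
      (fun ω h => Pool.Agent.W840.CT.li_mem h)
      (fun ω _ ω' _ h => Pool.Agent.W840.CT.li_inj h) (Pool.Agent.W840.CT.LS_finite n)

section

variable {ℓ : ℕ}

theorem unit_cases {p q : ℤ × ℤ} (h : |q.1 - p.1| + |q.2 - p.2| = 1) :
    q = p + (1, 0) ∨ q = p + (-1, 0) ∨ q = p + (0, 1) ∨ q = p + (0, -1) :=
  Pool.Agent.W840.CT.adj_cases h

theorem can1 (p : ℤ × ℤ) : p + (-1, 0) + (1, 0) = p := by
  refine Prod.ext ?_ ?_ <;> simp

theorem top_edge (hl : 2 ≤ ℓ) {f : ZMod (2 * ℓ) → ℤ × ℤ} (hf : f ∈ PL ℓ) :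
    ∃ a s : ZMod (2 * ℓ), (s = 1 ∨ s = -1) ∧ f (a - s) = f a + (1, 0) ∧
      ∀ i, (f i).2 ≤ (f a).2 := by
  have : NeZero (2 * ℓ) := ⟨by omega⟩
  obtain ⟨h0, hinj, hstep⟩ := (mem_PL (by omega)).1 hf
  obtain ⟨i0, -, hi0⟩ := Finset.exists_max_image (Finset.univ : Finset (ZMod (2 * ℓ)))
    (fun i => (f i).2) ⟨0, Finset.mem_univ _⟩
  have hmax : ∀ i, (f i).2 ≤ (f i0).2 := fun i => hi0 i (Finset.mem_univ _)
  have h1 := hstep i0
  have h2 := hstep (i0 - 1)
  rw [sub_add_cancel] at h2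
  have hne : f (i0 + 1) ≠ f (i0 - 1) := by
    intro h
    have h3 := hinj h
    have h4 : ((2 : ℕ) : ZMod (2 * ℓ)) = ((0 : ℕ) : ZMod (2 * ℓ)) := by
      push_cast
      linear_combination h3
    have := cast_inj (by omega) (by omega) h4
    omega
  have m1 := hmax (i0 + 1)
  have m2 := hmax (i0 - 1)
  rcases unit_cases h1 with h | h | h | h
  · exact ⟨i0, -1, Or.inr rfl, by rw [sub_neg_eq_add]; exact h, hmax⟩
  · refine ⟨i0 + 1, 1, Or.inl rfl, ?_, ?_⟩
    · rw [add_sub_cancel_right, h, can1]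
    · intro i
      rw [h]
      simpa using hmax i
  · rw [h] at m1
    simp at m1
  · rcases unit_cases h2 with h' | h' | h' | h'
    · refine ⟨i0 - 1, -1, Or.inr rfl, ?_, ?_⟩
      · rw [sub_neg_eq_add, sub_add_cancel]
        exact h'
      · intro i
        have := hmax i
        rw [h'] at this
        simpa using this
    · refine ⟨i0, 1, Or.inl rfl, ?_, hmax⟩
      rw [h', can1]
    · exfalso
      apply hne
      rw [h]
      rw [h']
      refine Prod.ext ?_ ?_ <;> simp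
    · have m3 : (f (i0 - 1)).2 = (f i0).2 + 1 := by
        rw [h']
        simp
      omega

/-- the loop as a list, cut between `a - s` and `a` -/
def ql (ℓ : ℕ) (f : ZMod (2 * ℓ) → ℤ × ℤ) (a s : ZMod (2 * ℓ)) : List P :=
  (List.range (2 * ℓ)).map (fun k : ℕ => f (a + s * (k : ZMod (2 * ℓ))) - f a)

theorem s_sq {s : ZMod (2 * ℓ)} (hs : s = 1 ∨ s = -1) : s * s = 1 := by
  rcases hs with rfl | rfl <;> ring

theorem surj_ql (hl : 1 ≤ ℓ) {a s : ZMod (2 * ℓ)} (hs : s = 1 ∨ s = -1) (i : ZMod (2 * ℓ)) :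
    ∃ k : ℕ, k < 2 * ℓ ∧ a + s * (k : ZMod (2 * ℓ)) = i := by
  have : NeZero (2 * ℓ) := ⟨by omega⟩
  refine ⟨(s * (i - a)).val, ZMod.val_lt _, ?_⟩
  rw [ZMod.natCast_zmod_val]
  linear_combination (i - a) * s_sq hs

theorem ql_mem (hl : 1 ≤ ℓ) {f : ZMod (2 * ℓ) → ℤ × ℤ} (hf : f ∈ PL ℓ) {a s : ZMod (2 * ℓ)}
    (hs : s = 1 ∨ s = -1) : ql ℓ f a s ∈ SF (2 * ℓ - 1) := by
  obtain ⟨h0, hinj, hstep⟩ := (mem_PL (by omega)).1 hf
  rw [← Finset.mem_coe, coe_SF_LS]
  have h1 : 2 * ℓ - 1 + 1 = 2 * ℓ := by omega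
  have := Pool.Agent.W840.CT.map_mem_LS (n := 2 * ℓ - 1)
    (g := fun k : ℕ => f (a + s * (k : ZMod (2 * ℓ))) - f a) (by simp) ?_ ?_
  · rw [h1] at this
    exact this
  · intro i _
    unfold Pool.Agent.W840.CT.adj
    simp only [Prod.fst_sub, Prod.snd_sub, sub_sub_sub_cancel_right]
    push_cast
    rcases hs with rfl | rfl
    · have := hstep (a + i)
      rw [show a + 1 * ((i : ZMod (2 * ℓ)) + 1) = a + i + 1 by ring,
        show a + 1 * (i : ZMod (2 * ℓ)) = a + i by ring]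
      exact this
    · have := hstep (a - i - 1)
      rw [show a - (i : ZMod (2 * ℓ)) - 1 + 1 = a + -1 * i by ring,
        show a - (i : ZMod (2 * ℓ)) - 1 = a + -1 * (i + 1) by ring] at this
      rw [abs_sub_comm (f (a + -1 * ((i : ZMod (2 * ℓ)) + 1))).1,
        abs_sub_comm (f (a + -1 * ((i : ZMod (2 * ℓ)) + 1))).2]
      exact this
  · intro i j hi hj hij
    have h2 := hinj (sub_left_injective hij)
    have h3 : s * ((i : ZMod (2 * ℓ)) - j) = 0 := by linear_combination h2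
    have h4 : (i : ZMod (2 * ℓ)) = j := by
      have h5 : s * (s * ((i : ZMod (2 * ℓ)) - j)) = 0 := by rw [h3, mul_zero]
      rw [← mul_assoc, s_sq hs, one_mul] at h5
      exact sub_eq_zero.1 h5
    exact cast_inj (by omega) (by omega) h4

theorem mem_ql (hl : 1 ≤ ℓ) {f : ZMod (2 * ℓ) → ℤ × ℤ} {a s : ZMod (2 * ℓ)}
    (hs : s = 1 ∨ s = -1) {p : P} : p ∈ ql ℓ f a s ↔ ∃ i, p = f i - f a := by
  unfold ql
  rw [List.mem_map]
  constructor
  · rintro ⟨k, -, rfl⟩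
    exact ⟨_, rfl⟩
  · rintro ⟨i, rfl⟩
    obtain ⟨k, hk, h⟩ := surj_ql hl (a := a) hs i
    exact ⟨k, List.mem_range.2 hk, by rw [h]⟩

theorem ql_inj (hl : 1 ≤ ℓ) {f f' : ZMod (2 * ℓ) → ℤ × ℤ} (hf : f ∈ PL ℓ) (hf' : f' ∈ PL ℓ)
    {a s : ZMod (2 * ℓ)} (hs : s = 1 ∨ s = -1) (h : ql ℓ f a s = ql ℓ f' a s) : f = f' := by
  have h0 := ((mem_PL (by omega)).1 hf).1
  have h0' := ((mem_PL (by omega)).1 hf').1
  unfold ql at h
  rw [List.map_inj_left] at h
  have h1 : ∀ i, f i - f a = f' i - f' a := by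
    intro i
    obtain ⟨k, hk, hi⟩ := surj_ql hl (a := a) hs i
    have := h k (List.mem_range.2 hk)
    rwa [hi] at this
  have h2 := h1 0
  rw [h0, h0', sub_right_inj] at h2
  funext i
  have h3 := h1 i
  rw [h2] at h3
  exact sub_left_injective h3

theorem ql_QS (hl : 2 ≤ ℓ) {f : ZMod (2 * ℓ) → ℤ × ℤ} (hf : f ∈ PL ℓ) {a s : ZMod (2 * ℓ)}
    (hs : s = 1 ∨ s = -1) (h1 : f (a - s) = f a + (1, 0)) (h2 : ∀ i, (f i).2 ≤ (f a).2) :
    ∃ D o, D < 2 * ℓ ∧ o < 2 * ℓ ∧ ql ℓ f a s ∈ QS ℓ D o ∧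
      ∀ i j, (f i).2 - (f j).2 ≤ (D : ℤ) := by
  have : NeZero (2 * ℓ) := ⟨by omega⟩
  obtain ⟨i1, -, hi1⟩ := Finset.exists_min_image (Finset.univ : Finset (ZMod (2 * ℓ)))
    (fun i => (f i).2) ⟨0, Finset.mem_univ _⟩
  have hmin : ∀ i, (f i1).2 ≤ (f i).2 := fun i => hi1 i (Finset.mem_univ _)
  obtain ⟨D, hD⟩ := Int.eq_ofNat_of_zero_le (sub_nonneg.2 (h2 i1))
  have hq := ql_mem (by omega) hf (a := a) hs
  have hq' := mem_SF.1 hq
  have hlen : (ql ℓ f a s).length = 2 * ℓ := by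
    rw [hq'.1]
    omega
  have hbot : f i1 - f a ∈ ql ℓ f a s := (mem_ql (by omega) hs).2 ⟨i1, rfl⟩
  have ho : (ql ℓ f a s).findIdx (fun p => decide (p.2 = -(D : ℤ))) < 2 * ℓ := by
    rw [← hlen, List.findIdx_lt_length]
    refine ⟨_, hbot, ?_⟩
    rw [decide_eq_true_eq]
    simp only [Prod.snd_sub]
    linarith
  refine ⟨D, _, ?_, ho, ?_, ?_⟩
  · -- the depth is less than the length
    have hc : ((ql ℓ f a s).map Prod.swap).IsChain Adj := by
      rw [List.isChain_map]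
      refine hq'.2.2.1.imp (fun p q h => ?_)
      unfold Adj at h ⊢
      rw [add_comm]
      exact h
    have h3 := chain_near (p := Prod.swap (f i1 - f a)) (a := 0) hc
      (by rw [List.head?_map, hq'.2.1]; rfl) (List.mem_map_of_mem hbot)
    rw [List.length_map, hlen] at h3
    simp only [Prod.fst_swap, Prod.snd_sub, Prod.fst_zero, sub_zero] at h3
    have h4 : |(f i1).2 - (f a).2| = D := by
      rw [abs_sub_comm, hD]
      simp
    rw [h4] at h3
    push_cast at h3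
    omega
  · rw [mem_QS (by omega)]
    refine ⟨hlen, hq'.2.1, hq'.2.2.1, hq'.2.2.2, ?_, ?_, rfl, ho⟩
    · unfold ql
      rw [List.getLast?_map, List.getLast?_range, if_neg (by omega)]
      simp only [Option.map_some, Option.some.injEq]
      have h3 : ((2 * ℓ - 1 : ℕ) : ZMod (2 * ℓ)) = -1 := by
        rw [Nat.cast_sub (by omega)]
        simp
      rw [h3, show a + s * -1 = a - s by ring, h1]
      simp
    · intro p hp
      obtain ⟨i, rfl⟩ := (mem_ql (by omega) hs).1 hp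
      have e1 := hmin i
      have e2 := h2 i
      simp only [Prod.snd_sub]
      exact ⟨by linarith, by linarith⟩
  · intro i j
    have e1 := hmin j
    have e2 := h2 i
    linarith

/-- loops with height at least `d` -/
noncomputable def PLh (ℓ d : ℕ) : Finset (ZMod (2 * ℓ) → ℤ × ℤ) :=
  (PL ℓ).filter (fun f => ∃ i j, (d : ℤ) ≤ (f i).2 - (f j).2)

theorem mem_PLh {d : ℕ} {f : ZMod (2 * ℓ) → ℤ × ℤ} :
    f ∈ PLh ℓ d ↔ f ∈ PL ℓ ∧ ∃ i j, (d : ℤ) ≤ (f i).2 - (f j).2 := by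
  unfold PLh
  rw [Finset.mem_filter]

theorem half (hl : 1 ≤ ℓ) {d : ℕ} (hd : d * d < 2 * ℓ) : (PL ℓ).card ≤ 2 * (PLh ℓ d).card := by
  have : NeZero (2 * ℓ) := ⟨by omega⟩
  set W : Finset (ZMod (2 * ℓ) → ℤ × ℤ) :=
    (PL ℓ).filter (fun f => ∃ i j, (d : ℤ) ≤ (f i).1 - (f j).1) with hW
  have h1 : PL ℓ ⊆ PLh ℓ d ∪ W := by
    intro f hf
    rw [Finset.mem_union]
    by_contra hcon
    push Not at hcon
    rw [hW, mem_PLh, Finset.mem_filter] at hcon
    have e1 : ∀ i j, (f i).2 - (f j).2 < d := by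
      intro i j
      by_contra h
      exact hcon.1 ⟨hf, i, j, not_lt.1 h⟩
    have e2 : ∀ i j, (f i).1 - (f j).1 < d := by
      intro i j
      by_contra h
      exact hcon.2 ⟨hf, i, j, not_lt.1 h⟩
    obtain ⟨i1, -, hi1⟩ := Finset.exists_min_image (Finset.univ : Finset (ZMod (2 * ℓ)))
      (fun i => (f i).1) ⟨0, Finset.mem_univ _⟩
    obtain ⟨i2, -, hi2⟩ := Finset.exists_min_image (Finset.univ : Finset (ZMod (2 * ℓ)))
      (fun i => (f i).2) ⟨0, Finset.mem_univ _⟩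
    have hsub : Finset.univ.image f ⊆ Finset.Ico (f i1).1 ((f i1).1 + d) ×ˢ
        Finset.Ico (f i2).2 ((f i2).2 + d) := by
      intro p hp
      obtain ⟨i, -, rfl⟩ := Finset.mem_image.1 hp
      rw [Finset.mem_product, Finset.mem_Ico, Finset.mem_Ico]
      have a1 := hi1 i (Finset.mem_univ _)
      have a2 := hi2 i (Finset.mem_univ _)
      have a3 := e1 i i2
      have a4 := e2 i i1
      exact ⟨⟨a1, by linarith⟩, a2, by linarith⟩
    have h2 := Finset.card_le_card hsub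
    rw [Finset.card_image_of_injective _ ((mem_PL hl).1 hf).2.1, Finset.card_univ, ZMod.card,
      Finset.card_product, Int.card_Ico, Int.card_Ico, add_sub_cancel_left, add_sub_cancel_left,
      Int.toNat_natCast] at h2
    omega
  have h2 : W.card ≤ (PLh ℓ d).card := by
    refine Finset.card_le_card_of_injOn (fun f i => ((f i).2, (f i).1)) ?_ ?_
    · intro f hf
      rw [Finset.mem_coe, hW, Finset.mem_filter] at hf
      rw [Finset.mem_coe, mem_PLh]
      obtain ⟨hf, h3⟩ := hf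
      obtain ⟨h0, hinj, hstep⟩ := (mem_PL hl).1 hf
      refine ⟨(mem_PL hl).2 ⟨?_, ?_, ?_⟩, h3⟩
      · simp [h0]
      · intro i j hij
        apply hinj
        simp only [Prod.mk.injEq] at hij
        exact Prod.ext hij.2 hij.1
      · intro i
        rw [add_comm]
        exact hstep i
    · intro f _ f' _ h
      funext i
      have := congrFun h i
      simp only [Prod.mk.injEq] at this
      exact Prod.ext this.2 this.1
  have h3 := (Finset.card_le_card h1).trans (Finset.card_union_le _ _)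
  omega

theorem many (hl : 2 ≤ ℓ) {d : ℕ} (hd : d * d < 2 * ℓ) :
    ∃ D o, d ≤ D ∧ (PL ℓ).card ≤ 32 * ℓ ^ 3 * (QS ℓ D o).card := by
  by_contra hcon
  push Not at hcon
  have : NeZero (2 * ℓ) := ⟨by omega⟩
  have hch : ∀ f : ZMod (2 * ℓ) → ℤ × ℤ, ∃ a s : ZMod (2 * ℓ), f ∈ PL ℓ →
      ((s = 1 ∨ s = -1) ∧ f (a - s) = f a + (1, 0) ∧ ∀ i, (f i).2 ≤ (f a).2) := by
    intro f
    by_cases hf : f ∈ PL ℓ
    · obtain ⟨a, s, h⟩ := top_edge hl hf
      exact ⟨a, s, fun _ => h⟩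
    · exact ⟨0, 0, fun h => absurd h hf⟩
  choose A S hAS using hch
  set I : Finset (ℕ × ℕ) := (Finset.range (2 * ℓ)).filter (fun D => d ≤ D) ×ˢ Finset.range (2 * ℓ)
    with hI
  have h1 : (PLh ℓ d).card ≤ ((I.biUnion (fun i => QS ℓ i.1 i.2)) ×ˢ
      ((Finset.univ : Finset (ZMod (2 * ℓ))) ×ˢ ({1, -1} : Finset (ZMod (2 * ℓ))))).card := by
    refine Finset.card_le_card_of_injOn (fun f => (ql ℓ f (A f) (S f), A f, S f)) ?_ ?_
    · intro f hf
      rw [Finset.mem_coe, mem_PLh] at hf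
      obtain ⟨hs, e1, e2⟩ := hAS f hf.1
      obtain ⟨D, o, hD, ho, hq, hdep⟩ := ql_QS hl hf.1 hs e1 e2
      obtain ⟨i, j, hij⟩ := hf.2
      rw [Finset.mem_coe, Finset.mem_product, Finset.mem_product, Finset.mem_biUnion]
      refine ⟨⟨(D, o), ?_, hq⟩, Finset.mem_univ _, ?_⟩
      · rw [hI, Finset.mem_product, Finset.mem_filter, Finset.mem_range, Finset.mem_range]
        have := hdep i j
        exact ⟨⟨hD, by omega⟩, ho⟩
      · rw [Finset.mem_insert, Finset.mem_singleton]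
        exact hs
    · intro f hf f' hf' h
      rw [Finset.mem_coe, mem_PLh] at hf hf'
      simp only [Prod.mk.injEq] at h
      obtain ⟨h2, h3, h4⟩ := h
      rw [← h3, ← h4] at h2
      exact ql_inj (by omega) hf.1 hf'.1 (hAS f hf.1).1 h2
  have h2 := half (ℓ := ℓ) (by omega) hd
  rw [Finset.card_product, Finset.card_product, Finset.card_univ, ZMod.card] at h1
  have h3 : ({1, -1} : Finset (ZMod (2 * ℓ))).card ≤ 2 := Finset.card_le_two
  have h4 : (I.biUnion (fun i => QS ℓ i.1 i.2)).card ≤ ∑ i ∈ I, (QS ℓ i.1 i.2).card :=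
    Finset.card_biUnion_le
  have h5 : I.card ≤ (2 * ℓ) * (2 * ℓ) := by
    rw [hI, Finset.card_product, Finset.card_range]
    exact Nat.mul_le_mul_right _ ((Finset.card_filter_le _ _).trans (by simp))
  have hpos : 0 < (PL ℓ).card := Finset.card_pos.2 (Pool.Agent.TH546.SAW.PL_nonempty hl)
  have h6 : 32 * ℓ ^ 3 * ∑ i ∈ I, (QS ℓ i.1 i.2).card < (2 * ℓ) * (2 * ℓ) * (PL ℓ).card := by
    rcases Finset.eq_empty_or_nonempty I with h | h
    · rw [h]
      simp only [Finset.sum_empty, mul_zero]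
      positivity
    · rw [Finset.mul_sum]
      calc ∑ i ∈ I, 32 * ℓ ^ 3 * (QS ℓ i.1 i.2).card < ∑ _i ∈ I, (PL ℓ).card := by
            refine Finset.sum_lt_sum_of_nonempty h (fun i hi => ?_)
            rw [hI, Finset.mem_product, Finset.mem_filter] at hi
            exact hcon _ _ hi.1.2
        _ = I.card * (PL ℓ).card := by rw [Finset.sum_const, smul_eq_mul]
        _ ≤ _ := Nat.mul_le_mul_right _ h5
  set B := ∑ i ∈ I, (QS ℓ i.1 i.2).card with hB
  set U := (I.biUnion (fun i => QS ℓ i.1 i.2)).card with hU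
  have h7 : (PLh ℓ d).card ≤ B * (2 * ℓ * 2) :=
    h1.trans (Nat.mul_le_mul h4 (Nat.mul_le_mul_left _ h3))
  have h8 : (PL ℓ).card ≤ 8 * ℓ * B := by
    calc (PL ℓ).card ≤ 2 * (PLh ℓ d).card := h2
      _ ≤ 2 * (B * (2 * ℓ * 2)) := Nat.mul_le_mul_left _ h7
      _ = 8 * ℓ * B := by ring
  have h9 : (2 * ℓ) * (2 * ℓ) * (PL ℓ).card ≤ 32 * ℓ ^ 3 * B := by
    calc (2 * ℓ) * (2 * ℓ) * (PL ℓ).card ≤ (2 * ℓ) * (2 * ℓ) * (8 * ℓ * B) :=
          Nat.mul_le_mul_left _ h8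
      _ = 32 * ℓ ^ 3 * B := by ring
  omega

end

end Run7.h206.QB
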