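import Pool.Agent.Run7.h206.SV.Full

/-! # Inserting lists between consecutive elements of a list -/

set_option autoImplicit false

namespace Run7.h206.QB

open Run7.h206.SV

/-- insert `f a b` between the consecutive elements `a`, `b` -/
def splice (f : P → P → List P) : List P → List P
  | [] => []
  | [a] => [a]
  | a :: b :: l => a :: (f a b ++ splice f (b :: l))

theorem con_cons {a b c d : P} {l : List P} :
    [c, d] <:+: (a :: b :: l) ↔ (c = a ∧ d = b) ∨ [c, d] <:+: (b :: l) := by
  rw [List.infix_cons_iff]
  refine or_congr ?_ Iff.rfl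
  constructor
  · intro h
    rw [List.cons_prefix_cons, List.cons_prefix_cons] at h
    exact ⟨h.1, h.2.1⟩
  · rintro ⟨rfl, rfl⟩
    rw [List.cons_prefix_cons, List.cons_prefix_cons]
    exact ⟨rfl, rfl, List.nil_prefix⟩

theorem con_one {a c d : P} : ¬ [c, d] <:+: [a] := by
  intro h
  have := h.length_le
  simp at this

theorem con_nil {c d : P} : ¬ [c, d] <:+: ([] : List P) := by
  intro h
  have := h.length_le
  simp at this

theorem con_mem {c d : P} {l : List P} (h : [c, d] <:+: l) : c ∈ l ∧ d ∈ l :=
  ⟨h.subset (by simp), h.subset (by simp)⟩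

theorem con_adj {c d : P} {l : List P} (h : [c, d] <:+: l) (hl : l.IsChain Adj) : Adj c d := by
  obtain ⟨s, t, rfl⟩ := h
  have h1 := (List.isChain_append.1 (List.isChain_append.1 hl).1).2.1
  simpa using h1

theorem mem_splice {f : P → P → List P} {l : List P} {p : P} :
    p ∈ splice f l ↔ p ∈ l ∨ ∃ a b, [a, b] <:+: l ∧ p ∈ f a b := by
  induction l with
  | nil =>
    simp only [splice, List.not_mem_nil, false_or, false_iff]
    rintro ⟨a, b, h, -⟩
    exact con_nil h
  | cons a l ih =>
    cases l with
    | nil =>
      simp only [splice, List.mem_singleton]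
      constructor
      · exact Or.inl
      · rintro (h | ⟨_, _, h, -⟩)
        · exact h
        · exact absurd h con_one
    | cons b l =>
      rw [splice, List.mem_cons, List.mem_append, ih]
      constructor
      · rintro (h | h | h | ⟨c, d, h1, h2⟩)
        · exact Or.inl (by rw [h]; exact List.mem_cons_self)
        · exact Or.inr ⟨a, b, con_cons.2 (Or.inl ⟨rfl, rfl⟩), h⟩
        · exact Or.inl (List.mem_cons_of_mem _ h)
        · exact Or.inr ⟨c, d, con_cons.2 (Or.inr h1), h2⟩
      · rintro (h | ⟨c, d, h1, h2⟩)
        · rcases List.mem_cons.1 h with h | h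
          · exact Or.inl h
          · exact Or.inr (Or.inr (Or.inl h))
        · rcases con_cons.1 h1 with ⟨rfl, rfl⟩ | h1
          · exact Or.inr (Or.inl h2)
          · exact Or.inr (Or.inr (Or.inr ⟨c, d, h1, h2⟩))

theorem head_splice {f : P → P → List P} (l : List P) : (splice f l).head? = l.head? := by
  cases l with
  | nil => rfl
  | cons a l =>
    cases l with
    | nil => rfl
    | cons b l => rfl

theorem chain_splice {f : P → P → List P} {l : List P}
    (h : ∀ a b, [a, b] <:+: l → (a :: (f a b ++ [b])).IsChain Adj) :
    (splice f l).IsChain Adj := by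
  induction l with
  | nil => simp [splice]
  | cons a l ih =>
    cases l with
    | nil => simp [splice]
    | cons b l =>
      have h1 := ih (fun c d hc => h c d (con_cons.2 (Or.inr hc)))
      have h2 := h a b (con_cons.2 (Or.inl ⟨rfl, rfl⟩))
      rw [splice]
      have h3 : (splice f (b :: l)).head? = some b := by rw [head_splice]; rfl
      rw [← List.cons_append, List.isChain_append] at h2 ⊢
      refine ⟨h2.1, h1, ?_⟩
      intro x hx y hy
      rw [h3] at hy
      exact h2.2.2 x hx y (by simpa using hy)

theorem nodup_splice {f : P → P → List P} {l : List P} (hl : l.Nodup)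
    (h1 : ∀ a b, [a, b] <:+: l → (f a b).Nodup)
    (h2 : ∀ a b, [a, b] <:+: l → ∀ p ∈ f a b, p ∉ l)
    (h3 : ∀ a b c d, [a, b] <:+: l → [c, d] <:+: l → ∀ p, p ∈ f a b → p ∈ f c d → a = c) :
    (splice f l).Nodup := by
  induction l with
  | nil => simp [splice]
  | cons a l ih =>
    cases l with
    | nil => simp [splice]
    | cons b l =>
      have hab : [a, b] <:+: (a :: b :: l) := con_cons.2 (Or.inl ⟨rfl, rfl⟩)
      have hl' := hl
      rw [List.nodup_cons] at hl
      have h4 := ih hl.2 (fun c d hc => h1 c d (con_cons.2 (Or.inr hc)))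
        (fun c d hc p hp hpl => h2 c d (con_cons.2 (Or.inr hc)) p hp (List.mem_cons_of_mem _ hpl))
        (fun c d c' d' hc hc' p hp hp' =>
          h3 c d c' d' (con_cons.2 (Or.inr hc)) (con_cons.2 (Or.inr hc')) p hp hp')
      rw [splice, List.nodup_cons, List.mem_append, mem_splice, List.nodup_append]
      refine ⟨?_, h1 a b hab, h4, ?_⟩
      · rintro (h | h | ⟨c, d, hc, h⟩)
        · exact h2 a b hab a h List.mem_cons_self
        · exact hl.1 h
        · exact h2 c d (con_cons.2 (Or.inr hc)) a h List.mem_cons_self
      · intro p hp q hq hpq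
        subst hpq
        rw [mem_splice] at hq
        rcases hq with hq | ⟨c, d, hc, hq⟩
        · exact h2 a b hab p hp (List.mem_cons_of_mem _ hq)
        · have := h3 a b c d hab (con_cons.2 (Or.inr hc)) p hp hq
          rw [this] at hl
          exact hl.1 (con_mem hc).1

theorem filter_splice {f : P → P → List P} {l : List P} (R : P → Prop) [DecidablePred R]
    (h1 : ∀ p ∈ l, ¬ R p) (h2 : ∀ a b, [a, b] <:+: l → ∀ p ∈ f a b, R p) :
    (splice f l).filter (fun p => ¬ R p) = l := by
  induction l with
  | nil => simp [splice]
  | cons a l ih =>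
    cases l with
    | nil =>
      have := h1 a (by simp)
      simp [splice, this]
    | cons b l =>
      have h3 := ih (fun p hp => h1 p (List.mem_cons_of_mem _ hp))
        (fun c d hc => h2 c d (con_cons.2 (Or.inr hc)))
      rw [splice, List.filter_cons, List.filter_append, h3]
      have h4 : (f a b).filter (fun p => decide (¬ R p)) = [] := by
        rw [List.filter_eq_nil_iff]
        intro p hp
        have := h2 a b (con_cons.2 (Or.inl ⟨rfl, rfl⟩)) p hp
        simpa using this
      have h5 := h1 a List.mem_cons_self
      rw [h4]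
      simp [h5]

theorem split_splice {f : P → P → List P} {l : List P} {a b : P} (h : [a, b] <:+: l) :
    ∃ A B, splice f l = A ++ (f a b ++ B) := by
  induction l with
  | nil => exact absurd h con_nil
  | cons c l ih =>
    cases l with
    | nil => exact absurd h con_one
    | cons d l =>
      rcases con_cons.1 h with ⟨rfl, rfl⟩ | h
      · exact ⟨[a], splice f (b :: l), by simp [splice]⟩
      · obtain ⟨A, B, hAB⟩ := ih h
        exact ⟨c :: (f c d ++ A), B, by rw [splice, hAB]; simp⟩

theorem splice_nil {f : P → P → List P} {l : List P}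
    (h : ∀ a b, [a, b] <:+: l → f a b = []) : splice f l = l := by
  induction l with
  | nil => rfl
  | cons a l ih =>
    cases l with
    | nil => rfl
    | cons b l =>
      rw [splice, h a b (con_cons.2 (Or.inl ⟨rfl, rfl⟩)),
        ih (fun c d hc => h c d (con_cons.2 (Or.inr hc)))]
      rfl

end Run7.h206.QB
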